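import Pool.Agent.Helper71.FK.Defs

/-! Elementary one-dimensional lemmas for the inner part (M6b). -/

open MeasureTheory Metric Set Filter Topology intervalIntegral

namespace Pool.Agent.Helper64.FKI

/-- finite minorant of `G(l) = l + n l^{-1/n} - (n+1)` -/
noncomputable def gg (l : ℝ) : ℝ := (l - 1) ^ 2 / (2 * max 1 l)

lemma max_pos' (l : ℝ) : 0 < max 1 l := lt_of_lt_of_le one_pos (le_max_left _ _)

lemma gg_nonneg (l : ℝ) : 0 ≤ gg l := by
  unfold gg
  have := max_pos' l
  positivity

lemma gg_continuous : Continuous gg := by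
  unfold gg
  refine Continuous.div (by fun_prop) (by fun_prop) ?_
  intro l
  have := max_pos' l
  positivity

lemma gg_le {l : ℝ} (hl : 0 ≤ l) : gg l ≤ (1 + l) / 2 := by
  unfold gg
  rw [div_le_iff₀ (by have := max_pos' l; positivity)]
  rcases le_total l 1 with h | h
  · rw [max_eq_left h]; nlinarith
  · rw [max_eq_right h]; nlinarith

/-- `gg l ≤ l - 1 - log l` -/
lemma gg_le_log {l : ℝ} (hl : 0 < l) : gg l ≤ l - 1 - Real.log l := by
  unfold gg
  rcases le_total l 1 with h | h
  · rw [max_eq_left h]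
    -- f(l) = l - 1 - log l - (l-1)^2/2 is antitone on (0,1], f(1)=0
    have key : AntitoneOn (fun x : ℝ => x - 1 - Real.log x - (x - 1) ^ 2 / 2) (Ioc 0 1) := by
      apply antitoneOn_of_deriv_nonpos (convex_Ioc 0 1)
      · apply ContinuousOn.sub
        · apply ContinuousOn.sub (by fun_prop)
          exact Real.continuousOn_log.mono fun x hx => by
            simp only [mem_compl_iff, mem_singleton_iff]; exact hx.1.ne'
        · fun_prop
      · rw [interior_Ioc]
        intro x hx
        have hx0 : x ≠ 0 := hx.1.ne'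
        apply DifferentiableAt.differentiableWithinAt
        have := (Real.hasDerivAt_log hx0).differentiableAt
        fun_prop
      · rw [interior_Ioc]
        intro x hx
        have hx0 : x ≠ 0 := hx.1.ne'
        have hd : HasDerivAt (fun x : ℝ => x - 1 - Real.log x - (x - 1) ^ 2 / 2)
            (1 - x⁻¹ - (2 * (x - 1)) / 2) x := by
          have h1 := ((hasDerivAt_id x).sub_const 1).sub (Real.hasDerivAt_log hx0)
          have h2 := (((hasDerivAt_id x).sub_const 1).pow 2).div_const 2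
          have h3 := h1.sub h2
          refine HasDerivAt.congr_deriv h3 ?_
          simp
        rw [hd.deriv]
        have hx1 : x * x⁻¹ = 1 := mul_inv_cancel₀ hx0
        have : 1 - x⁻¹ - (2 * (x - 1)) / 2 = -(x - 1) ^ 2 * x⁻¹ := by
          field_simp
          ring
        rw [this]
        have : 0 < x⁻¹ := inv_pos.2 hx.1
        nlinarith [sq_nonneg (x - 1), mul_nonneg (sq_nonneg (x - 1)) this.le]
    have := key (show l ∈ Ioc (0:ℝ) 1 from ⟨hl, h⟩) (show (1:ℝ) ∈ Ioc (0:ℝ) 1 from ⟨one_pos, le_rfl⟩) h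
    simp only [sub_self, Real.log_one] at this
    norm_num at this
    linarith
  · rw [max_eq_right h]
    have key : MonotoneOn (fun x : ℝ => x - 1 - Real.log x - (x - 1) ^ 2 / (2 * x)) (Ici 1) := by
      apply monotoneOn_of_deriv_nonneg (convex_Ici 1)
      · apply ContinuousOn.sub
        · apply ContinuousOn.sub (by fun_prop)
          exact Real.continuousOn_log.mono fun x hx => by
            simp only [mem_compl_iff, mem_singleton_iff]
            have : (1:ℝ) ≤ x := hx
            linarith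
        · apply ContinuousOn.div (by fun_prop) (by fun_prop)
          intro x hx
          have : (1:ℝ) ≤ x := hx
          positivity
      · rw [interior_Ici]
        intro x hx
        have hx1 : (1:ℝ) < x := hx
        have hx0 : x ≠ 0 := by positivity
        apply DifferentiableAt.differentiableWithinAt
        have := (Real.hasDerivAt_log hx0).differentiableAt
        have h2 : DifferentiableAt ℝ (fun x : ℝ => (x - 1) ^ 2 / (2 * x)) x :=
          DifferentiableAt.div (by fun_prop) (by fun_prop) (by positivity)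
        fun_prop
      · rw [interior_Ici]
        intro x hx
        have hx1 : (1:ℝ) < x := hx
        have hx0 : x ≠ 0 := by positivity
        have hd : HasDerivAt (fun x : ℝ => x - 1 - Real.log x - (x - 1) ^ 2 / (2 * x))
            (1 - x⁻¹ - ((2 * (x - 1)) * (2 * x) - (x - 1) ^ 2 * 2) / (2 * x) ^ 2) x := by
          have h1 := ((hasDerivAt_id x).sub_const 1).sub (Real.hasDerivAt_log hx0)
          have h2 := (((hasDerivAt_id x).sub_const 1).pow 2).div ((hasDerivAt_id x).const_mul 2)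
            (by simpa using hx0)
          have h3 := h1.sub h2
          refine HasDerivAt.congr_deriv h3 ?_
          simp
        rw [hd.deriv]
        have : 1 - x⁻¹ - ((2 * (x - 1)) * (2 * x) - (x - 1) ^ 2 * 2) / (2 * x) ^ 2 =
            (x - 1) ^ 2 / (2 * x ^ 2) := by
          field_simp
          ring
        rw [this]
        positivity
    have := key (show (1:ℝ) ∈ Ici (1:ℝ) from Set.self_mem_Ici) (show l ∈ Ici (1:ℝ) from h) h
    simp only [sub_self, Real.log_one] at this
    norm_num at this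
    linarith

/-- `gg ≤ G` -/
lemma gg_le_G {n : ℕ} (hn : 1 ≤ n) {l : ℝ} (hl : 0 < l) :
    gg l ≤ l + n * l ^ (-(1:ℝ) / n) - (n + 1) := by
  have hn0 : (0:ℝ) < n := by exact_mod_cast hn
  have h1 : 1 + (-(1:ℝ) / n) * Real.log l ≤ l ^ (-(1:ℝ) / n) := by
    rw [Real.rpow_def_of_pos hl]
    have := Real.add_one_le_exp (Real.log l * (-(1:ℝ) / n))
    linarith
  have h2 : (n:ℝ) * (1 + (-(1:ℝ) / n) * Real.log l) ≤ n * l ^ (-(1:ℝ) / n) :=
    mul_le_mul_of_nonneg_left h1 hn0.le
  have h3 : (n:ℝ) * (1 + (-(1:ℝ) / n) * Real.log l) = n - Real.log l := by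
    field_simp
    ring
  have := gg_le_log hl
  linarith

lemma abs_le_gg {l t : ℝ} (ht : 0 < t) :
    |l - 1| ≤ t * gg l + (l + |l - 1|) / (2 * t) := by
  unfold gg
  have hm := max_pos' l
  have h1 : max 1 l ≤ l + |l - 1| := by
    rcases le_total l 1 with h | h
    · rw [max_eq_left h, abs_of_nonpos (by linarith)]; linarith
    · rw [max_eq_right h, abs_of_nonneg (by linarith)]; linarith
  have h2 : |l - 1| ≤ t * ((l - 1) ^ 2 / (2 * max 1 l)) + (max 1 l) / (2 * t) := by
    rw [← sq_abs (l - 1)]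
    have : t * (|l - 1| ^ 2 / (2 * max 1 l)) + (max 1 l) / (2 * t) - |l - 1| =
        (t * |l - 1| - max 1 l) ^ 2 / (2 * t * max 1 l) := by
      field_simp
      ring
    have h3 : 0 ≤ (t * |l - 1| - max 1 l) ^ 2 / (2 * t * max 1 l) := by positivity
    linarith
  have h3 : (max 1 l) / (2 * t) ≤ (l + |l - 1|) / (2 * t) := by gcongr
  linarith

theorem X_bound {lam : ℝ → ℝ} {s₁ s₂ h : ℝ} (hs : s₁ ≤ s₂)
    (hi : IntervalIntegrable lam volume s₁ s₂) (h0 : ∀ s ∈ Icc s₁ s₂, 0 ≤ lam s)
    (ha : ∫ s in s₁..s₂, lam s ≤ 2) (hh : 0 < h) (hh1 : h ≤ 1 / 100)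
    (hg : ∫ s in s₁..s₂, gg (lam s) ≤ h) :
    ∫ s in s₁..s₂, |lam s - 1| ≤ Real.sqrt (10 * h) := by
  have hX : IntervalIntegrable (fun s => |lam s - 1|) volume s₁ s₂ :=
    (hi.sub (intervalIntegrable_const (c := (1:ℝ)))).abs
  have hgi : IntervalIntegrable (fun s => gg (lam s)) volume s₁ s₂ := by
    rw [intervalIntegrable_iff_integrableOn_Icc_of_le hs] at hi ⊢
    refine Integrable.mono' (g := fun s => (1 + lam s) / 2)
      (((integrable_const (1:ℝ)).add hi).div_const 2)
      (gg_continuous.comp_aestronglyMeasurable hi.aestronglyMeasurable) ?_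
    filter_upwards [self_mem_ae_restrict measurableSet_Icc] with s hs'
    rw [Real.norm_eq_abs, abs_of_nonneg (gg_nonneg _)]
    exact gg_le (h0 s hs')
  set X := ∫ s in s₁..s₂, |lam s - 1| with hXdef
  set r := Real.sqrt h with hr
  have hr0 : 0 < r := Real.sqrt_pos.2 hh
  have hr2 : r ^ 2 = h := Real.sq_sqrt hh.le
  have hr1 : r ≤ 1 / 10 := by
    rw [hr, show (1/10:ℝ) = Real.sqrt ((1/10)^2) by rw [Real.sqrt_sq (by norm_num)]]
    exact Real.sqrt_le_sqrt (by linarith)
  have h1 : X ≤ ∫ s in s₁..s₂, (r⁻¹ * gg (lam s) + (lam s + |lam s - 1|) / (2 * r⁻¹)) := by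
    apply intervalIntegral.integral_mono_on hs hX
    · exact (hgi.const_mul _).add ((hi.add hX).div_const _)
    · intro s hs'
      exact abs_le_gg (by positivity)
  rw [intervalIntegral.integral_add (hgi.const_mul _) ((hi.add hX).div_const _),
    intervalIntegral.integral_const_mul, intervalIntegral.integral_div,
    intervalIntegral.integral_add hi hX] at h1
  have h2 : r⁻¹ * ∫ s in s₁..s₂, gg (lam s) ≤ r := by
    calc r⁻¹ * ∫ s in s₁..s₂, gg (lam s) ≤ r⁻¹ * h := by
          apply mul_le_mul_of_nonneg_left hg (by positivity)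
      _ = r := by rw [← hr2]; field_simp
  have hX0 : 0 ≤ X := intervalIntegral.integral_nonneg hs fun s _ => abs_nonneg _
  have h3 : ((∫ s in s₁..s₂, lam s) + X) / (2 * r⁻¹) ≤ (2 + X) * r / 2 := by
    have : ((∫ s in s₁..s₂, lam s) + X) / (2 * r⁻¹) = ((∫ s in s₁..s₂, lam s) + X) * r / 2 := by
      field_simp
    rw [this]
    have := mul_le_mul_of_nonneg_right (add_le_add_left ha X) hr0.le
    linarith
  have h4 : X ≤ r + (2 + X) * r / 2 := by
    have : (∫ s in s₁..s₂, |lam s - 1|) = X := rfl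
    linarith
  have h5 : X * (1 - r / 2) ≤ 2 * r := by nlinarith
  have h6 : X * (19 / 20) ≤ 2 * r := by nlinarith
  have h7 : Real.sqrt (10 * h) = Real.sqrt 10 * r := by
    rw [Real.sqrt_mul (by norm_num)]
  have h8 : (3:ℝ) ≤ Real.sqrt 10 := by
    rw [show (3:ℝ) = Real.sqrt (3^2) by rw [Real.sqrt_sq (by norm_num)]]
    exact Real.sqrt_le_sqrt (by norm_num)
  rw [h7]
  nlinarith

/-- positive part squared is `C^1` -/
lemma hasDerivAt_possq (x : ℝ) : HasDerivAt (fun x : ℝ => (max 0 x) ^ 2) (2 * max 0 x) x := by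
  rcases lt_trichotomy x 0 with h | h | h
  · have : (fun x : ℝ => (max 0 x) ^ 2) =ᶠ[𝓝 x] fun _ => (0:ℝ) := by
      filter_upwards [Iio_mem_nhds h] with y hy
      rw [max_eq_left (le_of_lt hy)]; norm_num
    rw [max_eq_left h.le, mul_zero]
    exact (hasDerivAt_const x (0:ℝ)).congr_of_eventuallyEq this
  · subst h
    simp only [max_self, mul_zero]
    rw [hasDerivAt_iff_isLittleO_nhds_zero]
    simp only [zero_add, max_self, ne_eq, OfNat.ofNat_ne_zero, not_false_eq_true, zero_pow,
      sub_zero, smul_zero]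
    have h1 : (fun x : ℝ => (max 0 x) ^ 2) =O[𝓝 0] fun x : ℝ => x ^ 2 := by
      apply Asymptotics.IsBigO.of_bound 1
      filter_upwards with y
      rw [one_mul, norm_pow, norm_pow]
      gcongr
      rw [Real.norm_eq_abs, Real.norm_eq_abs, abs_of_nonneg (le_max_left _ _)]
      exact max_le (abs_nonneg _) (le_abs_self _)
    refine h1.trans_isLittleO ?_
    have := (Asymptotics.isLittleO_pow_pow (𝕜 := ℝ) (m := 1) (n := 2) (by norm_num))
    simpa using this
  · have : (fun x : ℝ => (max 0 x) ^ 2) =ᶠ[𝓝 x] fun x => x ^ 2 := by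
      filter_upwards [Ioi_mem_nhds h] with y hy
      rw [max_eq_right (le_of_lt hy)]
    rw [max_eq_right h.le]
    have h2 := (hasDerivAt_pow 2 x).congr_of_eventuallyEq this
    simpa using h2

/-- the cut-off: a `C^1` function with `Ψ = 0` on `(-∞,0]` and `Ψ = 1` on `[1,∞)` -/
noncomputable def cut0 (t : ℝ) : ℝ :=
  2 * (max 0 t) ^ 2 - 4 * (max 0 (t - 1 / 2)) ^ 2 + 2 * (max 0 (t - 1)) ^ 2

noncomputable def cut0' (t : ℝ) : ℝ :=
  4 * (max 0 t) - 8 * (max 0 (t - 1 / 2)) + 4 * (max 0 (t - 1))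

lemma hasDerivAt_cut0 (t : ℝ) : HasDerivAt cut0 (cut0' t) t := by
  unfold cut0 cut0'
  have h1 := (hasDerivAt_possq t).const_mul 2
  have h2 := ((hasDerivAt_possq (t - 1/2)).comp t ((hasDerivAt_id t).sub_const (1/2))).const_mul 4
  have h3 := ((hasDerivAt_possq (t - 1)).comp t ((hasDerivAt_id t).sub_const 1)).const_mul 2
  refine HasDerivAt.congr_deriv ((h1.sub h2).add h3) ?_
  ring

lemma cut0'_bound (t : ℝ) : 0 ≤ cut0' t ∧ cut0' t ≤ 2 := by
  unfold cut0'
  rcases le_total t 0 with h | h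
  · rw [max_eq_left h, max_eq_left (by linarith), max_eq_left (by linarith)]; norm_num
  rw [max_eq_right h]
  rcases le_total t (1/2) with h' | h'
  · rw [max_eq_left (by linarith), max_eq_left (by linarith)]; constructor <;> linarith
  rw [max_eq_right (by linarith)]
  rcases le_total t 1 with h'' | h''
  · rw [max_eq_left (by linarith)]; constructor <;> linarith
  · rw [max_eq_right (by linarith)]; constructor <;> linarith

lemma cut0'_zero {t : ℝ} (h : t ≤ 0) : cut0' t = 0 := by
  unfold cut0'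
  rw [max_eq_left h, max_eq_left (by linarith), max_eq_left (by linarith)]; norm_num

lemma cut0_zero {t : ℝ} (h : t ≤ 0) : cut0 t = 0 := by
  unfold cut0
  rw [max_eq_left h, max_eq_left (by linarith), max_eq_left (by linarith)]; norm_num

lemma cut0_one {t : ℝ} (h : 1 ≤ t) : cut0 t = 1 := by
  unfold cut0
  rw [max_eq_right (by linarith), max_eq_right (by linarith), max_eq_right (by linarith)]; ring

lemma cut0_mono : Monotone cut0 :=
  monotone_of_deriv_nonneg (fun t => (hasDerivAt_cut0 t).differentiableAt)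
    fun t => by rw [(hasDerivAt_cut0 t).deriv]; exact (cut0'_bound t).1

lemma cut0_contDiff : ContDiff ℝ 1 cut0 := by
  rw [contDiff_one_iff_deriv]
  refine ⟨fun t => (hasDerivAt_cut0 t).differentiableAt, ?_⟩
  have : deriv cut0 = cut0' := funext fun t => (hasDerivAt_cut0 t).deriv
  rw [this]
  unfold cut0'
  fun_prop

lemma cut0_le_one (t : ℝ) : cut0 t ≤ 1 := by
  rcases le_total t 1 with h | h
  · exact (cut0_mono h).trans_eq (cut0_one le_rfl)
  · exact (cut0_one h).le

lemma cut0_nonneg (t : ℝ) : 0 ≤ cut0 t := by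
  rcases le_total t 0 with h | h
  · exact (cut0_zero h).ge
  · exact (cut0_zero (le_refl (0:ℝ))).ge.trans (cut0_mono h)

/-- the scaled cut-off, `Ψ = 0` on `(-∞,ρ]`, `Ψ = 1` on `[1,∞)` -/
noncomputable def cut (ρ t : ℝ) : ℝ := cut0 ((t - ρ) / (1 - ρ))

section
variable {ρ : ℝ}

lemma cut_nonneg (t : ℝ) : 0 ≤ cut ρ t := cut0_nonneg _

lemma cut_le_one (t : ℝ) : cut ρ t ≤ 1 := cut0_le_one _

lemma cut_contDiff : ContDiff ℝ 1 (cut ρ) := by
  unfold cut
  exact cut0_contDiff.comp (by fun_prop)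

lemma cut_zero (hρ : ρ < 1) {t : ℝ} (h : t ≤ ρ) : cut ρ t = 0 :=
  cut0_zero (div_nonpos_of_nonpos_of_nonneg (by linarith) (by linarith))

lemma cut_hasDerivAt (t : ℝ) : HasDerivAt (cut ρ) (cut0' ((t - ρ) / (1 - ρ)) / (1 - ρ)) t := by
  unfold cut
  have h := (hasDerivAt_cut0 ((t - ρ) / (1 - ρ))).comp t
    (((hasDerivAt_id t).sub_const ρ).div_const (1 - ρ))
  refine HasDerivAt.congr_deriv h ?_
  ring

lemma cut_deriv_zero (hρ : ρ < 1) {t : ℝ} (h : t ≤ ρ) : deriv (cut ρ) t = 0 := by
  rw [(cut_hasDerivAt t).deriv, cut0'_zero (div_nonpos_of_nonpos_of_nonneg (by linarith) (by linarith))]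
  simp

lemma cut_deriv_nonneg (hρ : ρ < 1) (t : ℝ) : 0 ≤ deriv (cut ρ) t := by
  rw [(cut_hasDerivAt t).deriv]
  exact div_nonneg (cut0'_bound _).1 (by linarith)

lemma cut_deriv_le (hρ : ρ < 1) (t : ℝ) : deriv (cut ρ) t ≤ 2 / (1 - ρ) := by
  rw [(cut_hasDerivAt t).deriv]
  have : 0 < 1 - ρ := by linarith
  exact div_le_div_of_nonneg_right (cut0'_bound _).2 this.le

lemma cut_one (hρ : ρ < 1) : cut ρ 1 = 1 := by
  unfold cut
  rw [div_self (by linarith)]
  exact cut0_one le_rfl

lemma one_sub_cut_le (hρ : ρ < 1) (t : ℝ) : 1 - cut ρ t ≤ 2 / (1 - ρ) * |1 - t| := by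
  have h : ‖cut ρ 1 - cut ρ t‖ ≤ 2 / (1 - ρ) * ‖1 - t‖ := by
    apply convex_univ.norm_image_sub_le_of_norm_deriv_le (f := cut ρ)
      (fun x _ => (cut_hasDerivAt x).differentiableAt) ?_ (mem_univ _) (mem_univ _)
    intro x _
    rw [Real.norm_eq_abs, abs_of_nonneg (cut_deriv_nonneg hρ x)]
    exact cut_deriv_le hρ x
  rw [cut_one hρ] at h
  exact (le_abs_self _).trans h

end

end Pool.Agent.Helper64.FKI
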