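import Pool.Agent.Helper64.FK.InnerA

/-! Direction-wise part of M6b. -/

open MeasureTheory Metric Set Filter Topology
open scoped ENNReal

namespace Pool.Agent.Helper64.FKI

open Pool.Agent.Helper71.FK

/-- slice measure of the unit ball -/
noncomputable def be (n : ℕ) (t : ℝ) : ℝ := om n * Real.sqrt (1 - t ^ 2) ^ n

/-- flux of `∂_i u` through the hyperplane `x i = s` (equals the slice integral of `u`) -/
noncomputable def flux {N : ℕ} (u : E N → ℝ) (i : Fin N) (s : ℝ) : ℝ :=
  ∫ x in {x : E N | x i ≤ s}, (gradient u x) i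

/-- transport data in the direction `i` -/
structure DirData {N : ℕ} (n : ℕ) (Ω : Set (E N)) (i : Fin N) (T A : ℝ → ℝ) : Prop where
  Am : Measurable A
  A0 : ∀ s, 0 ≤ A s
  marg : Measure.map (fun x : E N => x i) (volume.restrict Ω) =
    volume.withDensity (fun s => ENNReal.ofReal (A s))
  mono : Monotone T
  cont : Continuous T
  mem : ∀ s, T s ∈ Icc (-1:ℝ) 1
  surj : ∀ t ∈ Ioo (-1:ℝ) 1, ∃ s, T s = t
  push : Measure.map T (volume.withDensity fun s => ENNReal.ofReal (A s)) =
    volume.withDensity (fun t => ENNReal.ofReal (be n t))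
  lam : ∀ s s', s ≤ s' → T s ∈ Ioo (-1:ℝ) 1 → T s' ∈ Ioo (-1:ℝ) 1 →
    IntervalIntegrable (fun x => A x / be n (T x)) volume s s' ∧
      T s' - T s = ∫ x in s..s', A x / be n (T x)
  D : ∀ u, Tst Ω u → (∀ x, 0 ≤ u x) →
    (∀ s, 0 ≤ flux u i s) ∧
    Integrable (fun s => flux u i s * gg (A s / be n (T s))) ∧
    (∫ x in Ω, (T (x i) + N * (gradient u x) i) ^ 2) +
      2 * N * (∫ s, flux u i s * gg (A s / be n (T s))) ≤ N ^ 2 * (TB N 1 - J u)

lemma om_pos (n : ℕ) : 0 < om n := by
  unfold om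
  rw [Measure.real, ENNReal.toReal_pos_iff]
  exact ⟨measure_ball_pos _ _ one_pos, measure_ball_lt_top⟩

lemma be_nonneg (n : ℕ) (t : ℝ) : 0 ≤ be n t := by
  unfold be
  have := om_pos n
  positivity

lemma be_continuous (n : ℕ) : Continuous (be n) := by
  unfold be
  fun_prop

lemma be_zero {n : ℕ} (hn : 1 ≤ n) {t : ℝ} (ht : 1 ≤ |t|) : be n t = 0 := by
  unfold be
  have : 1 - t ^ 2 ≤ 0 := by
    have := sq_abs t
    nlinarith
  rw [Real.sqrt_eq_zero_of_nonpos this, zero_pow (by omega), mul_zero]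

lemma be_le {n : ℕ} {a t : ℝ} (ha : 0 ≤ a) (ht : a ≤ |t|) :
    be n t ≤ om n * Real.sqrt (1 - a ^ 2) ^ n := by
  unfold be
  have h1 : a ^ 2 ≤ t ^ 2 := by rw [← sq_abs t]; gcongr
  have := om_pos n
  have h2 : Real.sqrt (1 - t ^ 2) ≤ Real.sqrt (1 - a ^ 2) := Real.sqrt_le_sqrt (by linarith)
  gcongr

lemma le_be {n : ℕ} {a t : ℝ} (ht : |t| ≤ a) :
    om n * Real.sqrt (1 - a ^ 2) ^ n ≤ be n t := by
  unfold be
  have h1 : t ^ 2 ≤ a ^ 2 := by rw [← sq_abs t]; gcongr
  have := om_pos n
  have h2 : Real.sqrt (1 - a ^ 2) ≤ Real.sqrt (1 - t ^ 2) := Real.sqrt_le_sqrt (by linarith)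
  gcongr

noncomputable abbrev muB (n : ℕ) : Measure ℝ := volume.withDensity fun t => ENNReal.ofReal (be n t)

lemma muB_atom (n : ℕ) (t : ℝ) : muB n {t} = 0 := by
  apply withDensity_absolutelyContinuous
  exact Real.volume_singleton

lemma muB_le (n : ℕ) {S K : Set ℝ} (hS : MeasurableSet S) (hK : MeasurableSet K)
    (hz : ∀ t ∈ S, t ∉ K → be n t = 0) {c : ℝ} (hc : 0 ≤ c) (hle : ∀ t ∈ S, be n t ≤ c)
    (hKf : volume K ≠ ⊤) : muB n S ≤ ENNReal.ofReal (c * volume.real K) := by
  rw [withDensity_apply _ hS]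
  calc ∫⁻ t in S, ENNReal.ofReal (be n t) ≤ ∫⁻ t in S, K.indicator (fun _ => ENNReal.ofReal c) t := by
        apply setLIntegral_mono_ae' hS
        filter_upwards with t ht
        by_cases hk : t ∈ K
        · rw [indicator_of_mem hk]; exact ENNReal.ofReal_le_ofReal (hle t ht)
        · rw [hz t ht hk]; simp
    _ ≤ ∫⁻ t, K.indicator (fun _ => ENNReal.ofReal c) t := setLIntegral_le_lintegral _ _
    _ = ENNReal.ofReal c * volume K := by
        rw [lintegral_indicator hK, lintegral_const, Measure.restrict_apply_univ]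
    _ = ENNReal.ofReal (c * volume.real K) := by
        rw [ENNReal.ofReal_mul hc, Measure.real, ENNReal.ofReal_toReal hKf]

lemma le_muB (n : ℕ) {S : Set ℝ} (hS : MeasurableSet S) {c : ℝ} (hc : 0 ≤ c)
    (hle : ∀ t ∈ S, c ≤ be n t) (hSf : volume S ≠ ⊤) :
    ENNReal.ofReal (c * volume.real S) ≤ muB n S := by
  rw [withDensity_apply _ hS]
  calc ENNReal.ofReal (c * volume.real S) = ENNReal.ofReal c * volume S := by
        rw [ENNReal.ofReal_mul hc, Measure.real, ENNReal.ofReal_toReal hSf]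
    _ = ∫⁻ t in S, ENNReal.ofReal c := by
        rw [lintegral_const, Measure.restrict_apply_univ]
    _ ≤ ∫⁻ t in S, ENNReal.ofReal (be n t) := by
        apply setLIntegral_mono_ae' hS
        filter_upwards with t ht
        exact ENNReal.ofReal_le_ofReal (hle t ht)

section data

variable {N n : ℕ} {Ω : Set (E N)} {i : Fin N} {T A : ℝ → ℝ}

lemma meas_coord (i : Fin N) : Measurable (fun x : E N => x i) := by fun_prop

lemma DirData.mapT (h : DirData n Ω i T A) :
    Measure.map (fun x : E N => T (x i)) (volume.restrict Ω) = muB n := by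
  have : (fun x : E N => T (x i)) = T ∘ fun x : E N => x i := rfl
  rw [this, ← Measure.map_map h.cont.measurable (meas_coord i), h.marg, h.push]

lemma DirData.measT (h : DirData n Ω i T A) : Measurable (fun x : E N => T (x i)) :=
  h.cont.measurable.comp (meas_coord i)

lemma DirData.total (h : DirData n Ω i T A) : muB n univ = volume Ω := by
  rw [← h.mapT, Measure.map_apply h.measT MeasurableSet.univ]
  simp

lemma DirData.om_le (h : DirData n Ω i T A) (hn : 1 ≤ n) (hV : volume Ω = ENNReal.ofReal (om N)) :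
    om N ≤ 2 * om n := by
  have h1 : muB n univ ≤ ENNReal.ofReal (om n * volume.real (Icc (-1:ℝ) 1)) := by
    apply muB_le n MeasurableSet.univ measurableSet_Icc ?_ (om_pos n).le ?_ (by simp)
    · intro t _ ht
      apply be_zero hn
      by_contra hc
      exact ht ⟨(abs_lt.1 (not_le.1 hc)).1.le, (abs_lt.1 (not_le.1 hc)).2.le⟩
    · intro t _
      have := be_le (n := n) (a := 0) (t := t) le_rfl (abs_nonneg t)
      simpa using this
  rw [h.total, hV, ENNReal.ofReal_le_ofReal_iff (by have := om_pos n; positivity)] at h1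
  have h2 : volume.real (Icc (-1:ℝ) 1) = 2 := by
    rw [Real.volume_real_Icc]; norm_num
  rw [h2] at h1
  linarith

lemma DirData.le_om (h : DirData n Ω i T A) (hV : volume Ω = ENNReal.ofReal (om N)) :
    om n * Real.sqrt (3 / 4) ^ n ≤ om N := by
  have h1 : ENNReal.ofReal (om n * Real.sqrt (3/4) ^ n * volume.real (Icc (-(1/2):ℝ) (1/2))) ≤
      muB n (Icc (-(1/2):ℝ) (1/2)) := by
    apply le_muB n measurableSet_Icc (by have := om_pos n; positivity) ?_ (by simp)
    intro t ht
    have := le_be (n := n) (a := 1/2) (t := t) (abs_le.2 ht)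
    norm_num at this ⊢
    exact this
  have h2 : muB n (Icc (-(1/2):ℝ) (1/2)) ≤ muB n univ := measure_mono (subset_univ _)
  have h3 := h1.trans h2
  rw [h.total, hV, ENNReal.ofReal_le_ofReal_iff (om_pos N).le] at h3
  have h4 : volume.real (Icc (-(1/2):ℝ) (1/2)) = 1 := by
    rw [Real.volume_real_Icc]; norm_num
  rw [h4] at h3
  linarith

/-- the slab `|T(x_i)| ≥ a` has small volume -/
lemma DirData.slab (h : DirData n Ω i T A) (hn : 1 ≤ n) (hN : 2 ≤ N)
    (hV : volume Ω = ENNReal.ofReal (om N)) {a : ℝ}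
    (ha : a = 1 - 1 / (16 * N)) :
    volume (Ω ∩ {x : E N | a ≤ |T (x i)|}) ≤ ENNReal.ofReal (om N / (8 * N)) := by
  have hN0 : (2:ℝ) ≤ N := by exact_mod_cast hN
  have hN1 : 1 / (16 * (N:ℝ)) ≤ 1 / 32 := by
    apply one_div_le_one_div_of_le (by norm_num); linarith
  have hN2 : 0 < 1 / (16 * (N:ℝ)) := by positivity
  have ha0 : 0 ≤ a := by rw [ha]; linarith
  have ha1 : a ≤ 1 := by rw [ha]; linarith
  have hS : MeasurableSet {t : ℝ | a ≤ |t|} := measurableSet_le measurable_const (by fun_prop)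
  have h1 : volume (Ω ∩ {x : E N | a ≤ |T (x i)|}) = muB n {t | a ≤ |t|} := by
    rw [← h.mapT, Measure.map_apply h.measT hS,
      Measure.restrict_apply (h.measT hS), inter_comm]
    rfl
  rw [h1]
  have h2 : muB n {t | a ≤ |t|} ≤ ENNReal.ofReal (om n * Real.sqrt (1 - a ^ 2) ^ n *
      volume.real (Icc (-1:ℝ) (-a) ∪ Icc a 1)) := by
    apply muB_le n hS (measurableSet_Icc.union measurableSet_Icc) ?_
      (by have := om_pos n; positivity) ?_ ?_
    · intro t ht hk
      apply be_zero hn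
      by_contra hc
      rw [not_le] at hc
      obtain ⟨hc1, hc2⟩ := abs_lt.1 hc
      apply hk
      have ht' : a ≤ |t| := ht
      rcases le_abs.1 ht' with h' | h'
      · right; exact ⟨h', hc2.le⟩
      · left; exact ⟨hc1.le, by linarith⟩
    · intro t ht
      exact be_le ha0 ht
    · exact ((measure_union_lt_top_iff).2 ⟨by simp, by simp⟩).ne
  refine h2.trans (ENNReal.ofReal_le_ofReal ?_)
  have h3 : volume.real (Icc (-1:ℝ) (-a) ∪ Icc a 1) ≤ 2 * (1 - a) := by
    refine (measureReal_union_le _ _).trans ?_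
    rw [Real.volume_real_Icc, Real.volume_real_Icc, max_eq_left (by linarith),
      max_eq_left (by linarith)]
    linarith
  have h4 : Real.sqrt (1 - a ^ 2) ≤ Real.sqrt (3 / 4) := by
    apply Real.sqrt_le_sqrt
    have : 1 - a ^ 2 = (1 - a) * (1 + a) := by ring
    rw [this]
    have : 1 - a ≤ 1 / 32 := by rw [ha]; linarith
    nlinarith
  have h5 : om n * Real.sqrt (1 - a ^ 2) ^ n ≤ om N := by
    refine le_trans ?_ (h.le_om hV)
    have := om_pos n
    gcongr
  calc om n * Real.sqrt (1 - a ^ 2) ^ n * volume.real (Icc (-1:ℝ) (-a) ∪ Icc a 1)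
      ≤ om N * (2 * (1 - a)) := by
        have := om_pos N
        gcongr
    _ = om N / (8 * N) := by
        rw [ha]; field_simp; ring

noncomputable def bt (n : ℕ) (t : ℝ) : ℝ := om n * Real.sqrt (1 - t ^ 2) ^ (n + 2) / (n + 2)

lemma bt_deriv (n : ℕ) {t : ℝ} (ht : t ∈ Ioo (-1:ℝ) 1) :
    HasDerivAt (bt n) (-(t * be n t)) t := by
  have h1 : 0 < 1 - t ^ 2 := by nlinarith [ht.1, ht.2]
  have hs : Real.sqrt (1 - t ^ 2) ≠ 0 := (Real.sqrt_pos.2 h1).ne'
  have h2 : HasDerivAt (fun t : ℝ => 1 - t ^ 2) (-(2 * t)) t := by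
    have := (hasDerivAt_pow 2 t).const_sub 1
    simpa using this
  have h3 := ((h2.sqrt h1.ne').pow (n + 2)).const_mul (om n)
  have h4 := h3.div_const ((n:ℝ) + 2)
  unfold bt be
  refine HasDerivAt.congr_deriv h4 ?_
  have h5 : Real.sqrt (1 - t ^ 2) ^ (n + 2 - 1) = Real.sqrt (1 - t ^ 2) ^ n * Real.sqrt (1 - t ^ 2) := by
    rw [show n + 2 - 1 = n + 1 by omega, pow_succ]
  rw [h5]
  push_cast
  field_simp

lemma bt_continuous (n : ℕ) : Continuous (bt n) := by
  unfold bt
  fun_prop

lemma bt_ge {n : ℕ} {a t : ℝ} (ht : |t| ≤ a) : bt n a ≤ bt n t := by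
  unfold bt
  have h1 : t ^ 2 ≤ a ^ 2 := by rw [← sq_abs t]; gcongr
  have := om_pos n
  have h2 : Real.sqrt (1 - a ^ 2) ≤ Real.sqrt (1 - t ^ 2) := Real.sqrt_le_sqrt (by linarith)
  gcongr

lemma int_be (n : ℕ) (hn : 1 ≤ n) {τ : ℝ} (hτ : τ ∈ Icc (-1:ℝ) 1) :
    ∫ t in Iic τ, t ∂(muB n) = - bt n τ := by
  have h1 : ∫ t in Iic τ, t ∂(muB n) = ∫ t in Iic τ, be n t * t := by
    have hm : Measurable fun t => (be n t).toNNReal := (be_continuous n).measurable.real_toNNReal
    have := setIntegral_withDensity_eq_setIntegral_smul (μ := volume) hm (fun t : ℝ => t)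
      (measurableSet_Iic (a := τ))
    have h' : (muB n) = volume.withDensity fun t => (((be n t).toNNReal : NNReal) : ℝ≥0∞) := rfl
    rw [h', this]
    apply setIntegral_congr_fun measurableSet_Iic
    intro t _
    simp only [NNReal.smul_def, smul_eq_mul]
    rw [Real.coe_toNNReal _ (be_nonneg n t)]
  rw [h1]
  have h2 : ∫ t in Iic τ, be n t * t = ∫ t in Ioc (-1) τ, be n t * t := by
    apply setIntegral_eq_of_subset_of_forall_sdiff_eq_zero measurableSet_Iic
    · intro t ht; exact ht.2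
    · intro t ht
      have : t ≤ -1 := by
        by_contra hc
        exact ht.2 ⟨not_le.1 hc, ht.1⟩
      rw [be_zero hn, zero_mul]
      rw [abs_of_nonpos (by linarith)]
      linarith
  rw [h2, ← intervalIntegral.integral_of_le hτ.1]
  have h3 := intervalIntegral.integral_eq_sub_of_hasDerivAt_of_le hτ.1
    (f := fun t => - bt n t) (f' := fun t => be n t * t) (bt_continuous n).neg.continuousOn ?_ ?_
  · rw [h3]
    have : bt n (-1) = 0 := by
      unfold bt; simp
    rw [this]; ring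
  · intro t ht
    have := (bt_deriv n (t := t) ⟨ht.1, ht.2.trans_le hτ.2⟩).neg
    refine HasDerivAt.congr_deriv this ?_
    ring
  · exact ((be_continuous n).mul continuous_id).intervalIntegrable _ _

/-- the moment identity -/
lemma DirData.moment (h : DirData n Ω i T A) (hn : 1 ≤ n) (s : ℝ) :
    ∫ x in Ω ∩ {x : E N | x i ≤ s}, T (x i) = - bt n (T s) := by
  set μA : Measure ℝ := volume.withDensity fun s => ENNReal.ofReal (A s) with hμA
  have hc := meas_coord (N := N) i
  have h1 : ∫ x in Ω ∩ {x : E N | x i ≤ s}, T (x i) = ∫ r in Iic s, T r ∂μA := by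
    rw [hμA, ← h.marg, setIntegral_map measurableSet_Iic
      h.cont.measurable.aestronglyMeasurable hc.aemeasurable, Measure.restrict_restrict (hc measurableSet_Iic),
      inter_comm]
    rfl
  have h2 : ∫ r in Iic s, T r ∂μA = ∫ r in T ⁻¹' (Iic (T s)), T r ∂μA := by
    apply setIntegral_congr_set
    have hat : μA (T ⁻¹' {T s}) = 0 := by
      rw [← Measure.map_apply h.cont.measurable (measurableSet_singleton _), h.push]
      exact muB_atom n _
    have hae : ∀ᵐ r ∂μA, r ∉ T ⁻¹' {T s} := measure_eq_zero_iff_ae_notMem.1 hat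
    filter_upwards [hae] with r hr
    apply propext
    show r ≤ s ↔ T r ≤ T s
    constructor
    · intro hrs; exact h.mono hrs
    · intro hT
      by_contra hc
      have h3 : T s ≤ T r := h.mono (not_le.1 hc).le
      exact hr (le_antisymm hT h3)
  have h3 : ∫ r in T ⁻¹' (Iic (T s)), T r ∂μA = ∫ t in Iic (T s), t ∂(muB n) := by
    have : (muB n) = Measure.map T μA := h.push.symm
    rw [this, setIntegral_map (f := fun t : ℝ => t) measurableSet_Iic
      (measurable_id.aestronglyMeasurable) h.cont.measurable.aemeasurable]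
  rw [h1, h2, h3, int_be n hn (h.mem s)]

end data

end Pool.Agent.Helper64.FKI
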