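import Mathlib

/-! Small `L²` toolbox with real integrals. -/

open MeasureTheory Filter Topology

namespace Pool.Agent.Helper64.FKI

section
variable {α : Type*} [MeasurableSpace α] {μ : Measure α} {f g : α → ℝ}

lemma int3 {a b c : α → ℝ} (ha : Integrable a μ) (hb : Integrable b μ) (hc : Integrable c μ) :
    ∫ x, a x + b x + c x ∂μ = (∫ x, a x ∂μ) + (∫ x, b x ∂μ) + ∫ x, c x ∂μ := by
  rw [integral_add (f := fun x => a x + b x) (ha.add hb) hc, integral_add ha hb]

/-- the `L²` norm as a real number -/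
noncomputable def nr (μ : Measure α) (f : α → ℝ) : ℝ := Real.sqrt (∫ x, f x ^ 2 ∂μ)

lemma nr_nonneg (μ : Measure α) (f : α → ℝ) : 0 ≤ nr μ f := Real.sqrt_nonneg _

lemma nr_sq (μ : Measure α) (f : α → ℝ) : nr μ f ^ 2 = ∫ x, f x ^ 2 ∂μ :=
  Real.sq_sqrt (integral_nonneg fun _ => sq_nonneg _)

lemma nr_le_of_sq {C : ℝ} (hC : 0 ≤ C) (h : ∫ x, f x ^ 2 ∂μ ≤ C ^ 2) : nr μ f ≤ C := by
  unfold nr
  rw [← Real.sqrt_sq hC]
  exact Real.sqrt_le_sqrt h

lemma cs_abs (hf : MemLp f 2 μ) (hg : MemLp g 2 μ) :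
    |∫ x, f x * g x ∂μ| ≤ nr μ f * nr μ g := by
  have hfg : Integrable (fun x => f x * g x) μ := hf.integrable_mul hg
  have hf2 : Integrable (fun x => f x ^ 2) μ := hf.integrable_sq
  have hg2 : Integrable (fun x => g x ^ 2) μ := hg.integrable_sq
  have h : ∀ t : ℝ, 0 ≤ (∫ x, f x ^ 2 ∂μ) * (t * t) + (2 * ∫ x, f x * g x ∂μ) * t +
      ∫ x, g x ^ 2 ∂μ := by
    intro t
    have h1 : ∫ x, (t * f x + g x) ^ 2 ∂μ = (∫ x, f x ^ 2 ∂μ) * (t * t) +
        (2 * ∫ x, f x * g x ∂μ) * t + ∫ x, g x ^ 2 ∂μ := by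
      have h2 : (fun x => (t * f x + g x) ^ 2) =
          fun x => (t * t) * f x ^ 2 + (2 * t) * (f x * g x) + g x ^ 2 := by
        funext x; ring
      rw [h2, int3 (hf2.const_mul _) (hfg.const_mul _) hg2, integral_const_mul,
        integral_const_mul]
      ring
    rw [← h1]
    exact integral_nonneg fun _ => sq_nonneg _
  have hd := discrim_le_zero h
  unfold discrim at hd
  have h3 : (∫ x, f x * g x ∂μ) ^ 2 ≤ (nr μ f * nr μ g) ^ 2 := by
    rw [mul_pow, nr_sq, nr_sq]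
    nlinarith
  exact abs_le_of_sq_le_sq h3 (mul_nonneg (nr_nonneg _ _) (nr_nonneg _ _)) |> fun h => by
    first
      | exact abs_le.2 h
      | exact h

lemma nr_add_le (hf : MemLp f 2 μ) (hg : MemLp g 2 μ) :
    nr μ (fun x => f x + g x) ≤ nr μ f + nr μ g := by
  have hfg : Integrable (fun x => f x * g x) μ := hf.integrable_mul hg
  have hf2 : Integrable (fun x => f x ^ 2) μ := hf.integrable_sq
  have hg2 : Integrable (fun x => g x ^ 2) μ := hg.integrable_sq
  apply nr_le_of_sq (add_nonneg (nr_nonneg _ _) (nr_nonneg _ _))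
  have h2 : (fun x => (f x + g x) ^ 2) =
      fun x => f x ^ 2 + 2 * (f x * g x) + g x ^ 2 := by
    funext x; ring
  rw [h2, int3 hf2 (hfg.const_mul _) hg2, integral_const_mul]
  have h3 := (abs_le.1 (cs_abs hf hg)).2
  have := nr_sq μ f
  have := nr_sq μ g
  nlinarith

lemma nr_sub_le (hf : MemLp f 2 μ) (hg : MemLp g 2 μ) :
    nr μ (fun x => f x - g x) ≤ nr μ f + nr μ g := by
  have h := nr_add_le hf hg.neg
  have h1 : nr μ (-g) = nr μ g := by unfold nr; simp
  rw [h1] at h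
  refine le_trans (le_of_eq ?_) h
  congr 1

/-- monotonicity -/
lemma nr_mono (hg : MemLp g 2 μ) (h : ∀ᵐ x ∂μ, |f x| ≤ |g x|) : nr μ f ≤ nr μ g := by
  unfold nr
  apply Real.sqrt_le_sqrt
  apply integral_mono_of_nonneg (Eventually.of_forall fun _ => sq_nonneg _) hg.integrable_sq
  filter_upwards [h] with x hx
  exact sq_le_sq.2 hx

lemma memLp_of_le (hg : MemLp g 2 μ) (hf : AEStronglyMeasurable f μ)
    (h : ∀ᵐ x ∂μ, |f x| ≤ |g x|) : MemLp f 2 μ :=
  hg.mono hf (by simpa [Real.norm_eq_abs] using h)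

lemma memLp_iff (hf : AEStronglyMeasurable f μ) (hi : Integrable (fun x => f x ^ 2) μ) :
    MemLp f 2 μ := (memLp_two_iff_integrable_sq hf).2 hi

/-- `∫|f| ≤ √μ(univ) ‖f‖₂` -/
lemma int_abs_le [IsFiniteMeasure μ] (hf : MemLp f 2 μ) :
    ∫ x, |f x| ∂μ ≤ Real.sqrt (μ.real Set.univ) * nr μ f := by
  have h1 : MemLp (fun _ : α => (1:ℝ)) 2 μ := memLp_const 1
  have h2 := cs_abs h1 hf.abs
  simp only [one_mul] at h2
  have h3 : nr μ (fun _ : α => (1:ℝ)) = Real.sqrt (μ.real Set.univ) := by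
    unfold nr
    simp
  have h4 : nr μ (fun x => |f x|) = nr μ f := by
    unfold nr; simp
  have h5 : |f| = fun x => |f x| := rfl
  rw [h3] at h2
  simp only [h5] at h2
  rw [h4] at h2
  exact (le_abs_self _).trans h2

/-- restriction to a smaller set decreases the norm -/
lemma nr_restrict_le (hf : MemLp f 2 μ) (s : Set α) : nr (μ.restrict s) f ≤ nr μ f := by
  unfold nr
  apply Real.sqrt_le_sqrt
  exact setIntegral_le_integral hf.integrable_sq (Eventually.of_forall fun _ => sq_nonneg _)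

lemma nr_restrict_mono {s t : Set α} (hf : MemLp f 2 (μ.restrict t)) (h : s ⊆ t) :
    nr (μ.restrict s) f ≤ nr (μ.restrict t) f := by
  unfold nr
  apply Real.sqrt_le_sqrt
  exact setIntegral_mono_set hf.integrable_sq (Eventually.of_forall fun _ => sq_nonneg _)
    h.eventuallyLE

/-- convergence of norms -/
lemma nr_tendsto {F : ℕ → α → ℝ} {G : α → ℝ} (hF : ∀ k, MemLp (F k) 2 μ) (hG : MemLp G 2 μ)
    (h : Tendsto (fun k => nr μ (fun x => F k x - G x)) atTop (𝓝 0)) :
    Tendsto (fun k => nr μ (F k)) atTop (𝓝 (nr μ G)) := by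
  rw [tendsto_iff_dist_tendsto_zero]
  refine squeeze_zero (fun _ => dist_nonneg) (fun k => ?_) h
  rw [Real.dist_eq, abs_sub_le_iff]
  constructor
  · have := nr_add_le (hF k |>.sub hG) hG
    simp only [Pi.sub_apply, sub_add_cancel] at this
    have h2 : nr μ (F k - G) = nr μ (fun x => F k x - G x) := rfl
    linarith [this, h2.le, h2.ge]
  · have := nr_sub_le (hF k) (hF k |>.sub hG)
    simp only [Pi.sub_apply, sub_sub_cancel] at this
    have h2 : nr μ (F k - G) = nr μ (fun x => F k x - G x) := rfl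
    linarith [this, h2.le, h2.ge]

end

end Pool.Agent.Helper64.FKI
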