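import Pool.Agent.Helper64.FK.InnerB
import Pool.Agent.Helper64.FK.L2T

/-! Direction-wise energy estimates of M6b. -/

open MeasureTheory Metric Set Filter Topology
open scoped ENNReal

namespace Pool.Agent.Helper64.FKI

open Pool.Agent.Helper71.FK

section tst

variable {N : ℕ} {Ω : Set (E N)} {u : E N → ℝ}

lemma grad_cont (h : ContDiff ℝ 1 u) : Continuous (gradient u) :=
  (InnerProductSpace.toDual ℝ (E N)).symm.continuous.comp (h.continuous_fderiv one_ne_zero)

lemma grad_zero_of_notMem (h : Tst Ω u) {x : E N} (hx : x ∉ Ω) : gradient u x = 0 := by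
  have h1 : x ∉ tsupport u := fun h' => hx (h.supp h')
  have h2 : fderiv ℝ u x = 0 := fderiv_of_notMem_tsupport (𝕜 := ℝ) h1
  unfold gradient
  rw [h2, map_zero]

lemma u_zero_of_notMem (h : Tst Ω u) {x : E N} (hx : x ∉ Ω) : u x = 0 := by
  have h1 : x ∉ tsupport u := fun h' => hx (h.supp h')
  exact image_eq_zero_of_notMem_tsupport h1

lemma grad_cs (h : Tst Ω u) : HasCompactSupport (gradient u) := by
  have h1 : HasCompactSupport (fderiv ℝ u) := h.cpt.fderiv ℝ
  exact h1.comp_left (g := (InnerProductSpace.toDual ℝ (E N)).symm) (map_zero _)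

lemma gradi_cont (h : Tst Ω u) (i : Fin N) : Continuous (fun x => (gradient u x) i) := by
  have := grad_cont h.smooth
  fun_prop

lemma gradi_cs (h : Tst Ω u) (i : Fin N) : HasCompactSupport (fun x => (gradient u x) i) :=
  (grad_cs h).comp_left (g := fun y : E N => y i) rfl

lemma gradi_int (h : Tst Ω u) (i : Fin N) : Integrable (fun x => (gradient u x) i) :=
  (gradi_cont h i).integrable_of_hasCompactSupport (gradi_cs h i)

lemma gradi_memLp (h : Tst Ω u) (i : Fin N) : MemLp (fun x => (gradient u x) i) 2 volume :=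
  (gradi_cont h i).memLp_of_hasCompactSupport (gradi_cs h i)

lemma gradn_memLp (h : Tst Ω u) : MemLp (fun x => ‖gradient u x‖) 2 volume :=
  ((grad_cont h.smooth).memLp_of_hasCompactSupport (grad_cs h)).norm

lemma u_int (h : Tst Ω u) : Integrable u :=
  h.smooth.continuous.integrable_of_hasCompactSupport h.cpt

end tst

section dir

variable {N n : ℕ} {Ω : Set (E N)} {i : Fin N} {T A : ℝ → ℝ}

lemma DirData.absT_le (h : DirData n Ω i T A) (s : ℝ) : |T s| ≤ 1 := abs_le.2 (h.mem s)

lemma fin_of_vol (hV : volume Ω = ENNReal.ofReal (om N)) : volume Ω ≠ ⊤ := by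
  rw [hV]; exact ENNReal.ofReal_ne_top

lemma real_of_vol (hV : volume Ω = ENNReal.ofReal (om N)) : volume.real Ω = om N := by
  rw [Measure.real, hV, ENNReal.toReal_ofReal (om_pos N).le]

lemma DirData.memLp (h : DirData n Ω i T A) (hV : volume Ω = ENNReal.ofReal (om N)) :
    MemLp (fun x : E N => T (x i)) 2 (volume.restrict Ω) := by
  have : IsFiniteMeasure (volume.restrict Ω) :=
    ⟨by rw [Measure.restrict_apply_univ]; exact (fin_of_vol hV).lt_top⟩
  apply MemLp.of_bound h.measT.aestronglyMeasurable 1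
  filter_upwards with x
  rw [Real.norm_eq_abs]
  exact h.absT_le _

lemma DirData.memLpSum (h : DirData n Ω i T A) (hV : volume Ω = ENNReal.ofReal (om N))
    {u : E N → ℝ} (hu : Tst Ω u) :
    MemLp (fun x : E N => T (x i) + N * (gradient u x) i) 2 (volume.restrict Ω) :=
  (h.memLp hV).add (((gradi_memLp hu i).restrict Ω).const_mul (N:ℝ))

variable {u : E N → ℝ}

lemma DirData.sq_le (h : DirData n Ω i T A) (hu : Tst Ω u) (hu0 : ∀ x, 0 ≤ u x) :
    (∫ x in Ω, (T (x i) + N * (gradient u x) i) ^ 2) ≤ N ^ 2 * (TB N 1 - J u) := by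
  obtain ⟨h1, _, h3⟩ := h.D u hu hu0
  have h4 : 0 ≤ ∫ s, flux u i s * gg (A s / be n (T s)) :=
    integral_nonneg fun s => mul_nonneg (h1 s) (gg_nonneg _)
  have h5 : 0 ≤ 2 * (N:ℝ) * (∫ s, flux u i s * gg (A s / be n (T s))) := by positivity
  linarith

lemma DirData.e_nonneg (h : DirData n Ω i T A) (hN : 0 < N) (hu : Tst Ω u) (hu0 : ∀ x, 0 ≤ u x) :
    0 ≤ TB N 1 - J u := by
  have h1 := h.sq_le hu hu0
  have h2 : 0 ≤ ∫ x in Ω, (T (x i) + N * (gradient u x) i) ^ 2 :=
    integral_nonneg fun _ => sq_nonneg _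
  have h3 : (0:ℝ) < N ^ 2 := by positivity
  by_contra hc
  nlinarith [mul_neg_of_pos_of_neg h3 (not_le.1 hc)]

lemma DirData.nr_le (h : DirData n Ω i T A) (hN : 0 < N) (hu : Tst Ω u) (hu0 : ∀ x, 0 ≤ u x) :
    nr (volume.restrict Ω) (fun x => T (x i) + N * (gradient u x) i) ≤
      N * Real.sqrt (TB N 1 - J u) := by
  have he := h.e_nonneg hN hu hu0
  apply nr_le_of_sq (by positivity)
  rw [mul_pow, Real.sq_sqrt he]
  exact h.sq_le hu hu0

lemma DirData.flux_lower (h : DirData n Ω i T A) (hn : 1 ≤ n) (hN : 0 < N) (hΩ : IsOpen Ω)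
    (hV : volume Ω = ENNReal.ofReal (om N)) (hu : Tst Ω u) (hu0 : ∀ x, 0 ≤ u x) {a s : ℝ}
    (ha : |T s| ≤ a) :
    bt n a / N - Real.sqrt (om N) * Real.sqrt (TB N 1 - J u) ≤ flux u i s := by
  have : IsFiniteMeasure (volume.restrict Ω) :=
    ⟨by rw [Measure.restrict_apply_univ]; exact (fin_of_vol hV).lt_top⟩
  have hN0 : (0:ℝ) < N := by exact_mod_cast hN
  set H : Set (E N) := {x : E N | x i ≤ s} with hH
  have hHm : MeasurableSet H := measurableSet_le (meas_coord i) measurable_const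
  have hΩm := hΩ.measurableSet
  have hf : flux u i s = ∫ x in Ω ∩ H, (gradient u x) i := by
    unfold flux
    rw [inter_comm]
    apply setIntegral_eq_of_subset_of_forall_sdiff_eq_zero hHm inter_subset_left
    intro x hx
    have : x ∉ Ω := fun hc => hx.2 ⟨hx.1, hc⟩
    rw [grad_zero_of_notMem hu this]
    rfl
  have hTi : IntegrableOn (fun x : E N => T (x i)) (Ω ∩ H) :=
    ((h.memLp hV).integrable (by norm_num)).mono_measure (Measure.restrict_mono inter_subset_left le_rfl)
  have hgi : IntegrableOn (fun x : E N => (N:ℝ) * (gradient u x) i) (Ω ∩ H) :=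
    ((gradi_int hu i).const_mul _).integrableOn
  have hsum : ∫ x in Ω ∩ H, (T (x i) + N * (gradient u x) i) =
      (∫ x in Ω ∩ H, T (x i)) + N * ∫ x in Ω ∩ H, (gradient u x) i := by
    rw [integral_add hTi hgi, integral_const_mul]
  have hmom := h.moment hn s
  have hle : |∫ x in Ω ∩ H, (T (x i) + N * (gradient u x) i)| ≤
      Real.sqrt (om N) * (N * Real.sqrt (TB N 1 - J u)) := by
    calc |∫ x in Ω ∩ H, (T (x i) + N * (gradient u x) i)|
        ≤ ∫ x in Ω ∩ H, |T (x i) + N * (gradient u x) i| := abs_integral_le_integral_abs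
      _ ≤ ∫ x in Ω, |T (x i) + N * (gradient u x) i| := by
          apply setIntegral_mono_set ((h.memLpSum hV hu).integrable (by norm_num)).abs
            (Eventually.of_forall fun _ => abs_nonneg _) inter_subset_left.eventuallyLE
      _ ≤ Real.sqrt ((volume.restrict Ω).real univ) *
          nr (volume.restrict Ω) (fun x => T (x i) + N * (gradient u x) i) :=
          int_abs_le (h.memLpSum hV hu)
      _ ≤ Real.sqrt (om N) * (N * Real.sqrt (TB N 1 - J u)) := by
          rw [Measure.real, Measure.restrict_apply_univ, hV, ENNReal.toReal_ofReal (om_pos N).le]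
          exact mul_le_mul_of_nonneg_left (h.nr_le hN hu hu0) (Real.sqrt_nonneg _)
  have hbt := bt_ge (n := n) ha
  have h1 := (abs_le.1 hle).1
  rw [hsum, hmom, ← hf] at h1
  have h2 : bt n a ≤ N * flux u i s + Real.sqrt (om N) * (N * Real.sqrt (TB N 1 - J u)) := by
    linarith
  have h3 : bt n a / N ≤ flux u i s + Real.sqrt (om N) * Real.sqrt (TB N 1 - J u) := by
    rw [div_le_iff₀ hN0]
    linarith
  linarith

lemma DirData.slab_int (h : DirData n Ω i T A) (hn : 1 ≤ n) (hN : 0 < N) (hΩ : IsOpen Ω)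
    (hV : volume Ω = ENNReal.ofReal (om N)) (hu : Tst Ω u) (hu0 : ∀ x, 0 ≤ u x) {a s₁ s₂ : ℝ}
    (hs : s₁ ≤ s₂) (ha : ∀ s ∈ Icc s₁ s₂, |T s| ≤ a)
    (hgi : IntervalIntegrable (fun s => gg (A s / be n (T s))) volume s₁ s₂) :
    (bt n a / N - Real.sqrt (om N) * Real.sqrt (TB N 1 - J u)) *
      (∫ s in s₁..s₂, gg (A s / be n (T s))) ≤ N / 2 * (TB N 1 - J u) := by
  have hN0 : (0:ℝ) < N := by exact_mod_cast hN
  obtain ⟨h1, h2, h3⟩ := h.D u hu hu0
  have h4 : (∫ s in s₁..s₂, (bt n a / N - Real.sqrt (om N) * Real.sqrt (TB N 1 - J u)) *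
      gg (A s / be n (T s))) ≤ ∫ s in s₁..s₂, flux u i s * gg (A s / be n (T s)) := by
    apply intervalIntegral.integral_mono_on hs (hgi.const_mul _) h2.intervalIntegrable
    intro s hs'
    exact mul_le_mul_of_nonneg_right (h.flux_lower hn hN hΩ hV hu hu0 (ha s hs')) (gg_nonneg _)
  rw [intervalIntegral.integral_const_mul] at h4
  have h5 : ∫ s in s₁..s₂, flux u i s * gg (A s / be n (T s)) ≤
      ∫ s, flux u i s * gg (A s / be n (T s)) := by
    rw [intervalIntegral.integral_of_le hs]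
    exact setIntegral_le_integral h2 (Eventually.of_forall fun s => mul_nonneg (h1 s) (gg_nonneg _))
  have h6 : 0 ≤ ∫ x in Ω, (T (x i) + N * (gradient u x) i) ^ 2 :=
    integral_nonneg fun _ => sq_nonneg _
  have h7 : 2 * N * (∫ s, flux u i s * gg (A s / be n (T s))) ≤ N ^ 2 * (TB N 1 - J u) := by
    linarith
  have h8 : (∫ s, flux u i s * gg (A s / be n (T s))) ≤ N / 2 * (TB N 1 - J u) := by
    by_contra hc
    have := mul_lt_mul_of_pos_left (not_le.1 hc) (show (0:ℝ) < 2 * N by positivity)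
    nlinarith
  linarith

end dir

end Pool.Agent.Helper64.FKI
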