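import Pool.Agent.Helper64.FK.InnerC

/-! Limits along the maximising sequence and the direction-wise output of M6b. -/

open MeasureTheory Metric Set Filter Topology
open scoped ENNReal

namespace Pool.Agent.Helper64.FKI

open Pool.Agent.Helper71.FK

section pair

variable {N : ℕ} {Ω : Set (E N)} {u : ℕ → E N → ℝ} {w : E N → ℝ} {g : E N → E N}

lemma pair_gn_memLp (hp : Pair Ω u w g) : MemLp (fun x => ‖g x‖) 2 volume :=
  memLp_iff hp.gm.norm.aestronglyMeasurable hp.gint

lemma pair_diff_memLp (hp : Pair Ω u w g) (k : ℕ) :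
    MemLp (fun x => ‖gradient (u k) x - g x‖) 2 volume := by
  have h1 := gradn_memLp (hp.tst k)
  have h2 := pair_gn_memLp hp
  refine memLp_of_le (h1.add h2) ?_ ?_
  · exact (((grad_cont (hp.tst k).smooth).measurable.sub hp.gm).norm).aestronglyMeasurable
  · filter_upwards with x
    rw [abs_of_nonneg (norm_nonneg _)]
    simp only [Pi.add_apply]
    rw [abs_of_nonneg (add_nonneg (norm_nonneg _) (norm_nonneg _))]
    exact norm_sub_le _ _

lemma pair_nr_diff (hp : Pair Ω u w g) :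
    Tendsto (fun k => nr volume (fun x => ‖gradient (u k) x - g x‖)) atTop (𝓝 0) := by
  have := hp.limg.sqrt
  simpa [nr] using this

lemma pair_nr_tendsto (hp : Pair Ω u w g) :
    Tendsto (fun k => nr volume (fun x => ‖gradient (u k) x‖)) atTop
      (𝓝 (nr volume (fun x => ‖g x‖))) := by
  apply nr_tendsto (fun k => gradn_memLp (hp.tst k)) (pair_gn_memLp hp)
  refine squeeze_zero (fun _ => nr_nonneg _ _) (fun k => ?_) (pair_nr_diff hp)
  apply nr_mono (pair_diff_memLp hp k)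
  filter_upwards with x
  rw [abs_of_nonneg (norm_nonneg _)]
  exact abs_norm_sub_norm_le _ _

lemma pair_int_tendsto (hp : Pair Ω u w g) :
    Tendsto (fun k => ∫ x, u k x) atTop (𝓝 (∫ x, w x)) := by
  rw [tendsto_iff_dist_tendsto_zero]
  refine squeeze_zero (fun _ => dist_nonneg) (fun k => ?_) hp.limw
  rw [Real.dist_eq, ← integral_sub (u_int (hp.tst k)) hp.wint]
  exact abs_integral_le_integral_abs

lemma pair_J_tendsto (hp : Pair Ω u w g) (hEL : ∫ x, ‖g x‖ ^ 2 = ∫ x, w x) :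
    Tendsto (fun k => J (u k)) atTop (𝓝 (∫ x, w x)) := by
  have h1 := ((pair_int_tendsto hp).const_mul 2).sub ((pair_nr_tendsto hp).pow 2)
  have h2 : 2 * (∫ x, w x) - nr volume (fun x => ‖g x‖) ^ 2 = ∫ x, w x := by
    rw [nr_sq, hEL]; ring
  rw [h2] at h1
  refine h1.congr fun k => ?_
  rw [nr_sq]
  rfl

lemma pair_e_tendsto (hp : Pair Ω u w g) (hEL : ∫ x, ‖g x‖ ^ 2 = ∫ x, w x) :
    Tendsto (fun k => TB N 1 - J (u k)) atTop (𝓝 (TB N 1 - ∫ x, w x)) :=
  (pair_J_tendsto hp hEL).const_sub _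

variable {n : ℕ} {i : Fin N} {T A : ℝ → ℝ}

lemma gi_memLp (hp : Pair Ω u w g) (i : Fin N) : MemLp (fun x => (g x) i) 2 volume := by
  refine memLp_of_le (pair_gn_memLp hp) ?_ ?_
  · exact ((meas_coord i).comp hp.gm).aestronglyMeasurable
  · filter_upwards with x
    rw [abs_of_nonneg (norm_nonneg (g x))]
    exact PiLp.norm_apply_le (g x) i

lemma memLpTg (hp : Pair Ω u w g) (h : DirData n Ω i T A)
    (hV : volume Ω = ENNReal.ofReal (om N)) :
    MemLp (fun x : E N => T (x i) + N * (g x) i) 2 (volume.restrict Ω) :=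
  (h.memLp hV).add (((gi_memLp hp i).restrict Ω).const_mul (N:ℝ))

/-- P4 -/
lemma P4 (hp : Pair Ω u w g) (hEL : ∫ x, ‖g x‖ ^ 2 = ∫ x, w x) (h : DirData n Ω i T A)
    (hN : 0 < N) (hV : volume Ω = ENNReal.ofReal (om N)) :
    nr (volume.restrict Ω) (fun x => T (x i) + N * (g x) i) ≤
      N * Real.sqrt (TB N 1 - ∫ x, w x) := by
  have h1 : Tendsto (fun k => N * Real.sqrt (TB N 1 - J (u k)) +
      N * nr volume (fun x => ‖gradient (u k) x - g x‖)) atTop
      (𝓝 (N * Real.sqrt (TB N 1 - ∫ x, w x) + N * 0)) :=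
    ((pair_e_tendsto hp hEL).sqrt.const_mul _).add ((pair_nr_diff hp).const_mul _)
  rw [mul_zero, add_zero] at h1
  refine ge_of_tendsto' h1 fun k => ?_
  have hd : MemLp (fun x => (N:ℝ) * ((gradient (u k) x) i - (g x) i)) 2 (volume.restrict Ω) :=
    (((gradi_memLp (hp.tst k) i).sub (gi_memLp hp i)).restrict Ω).const_mul (N:ℝ)
  have h2 : (fun x : E N => T (x i) + N * (g x) i) = fun x => (T (x i) + N * (gradient (u k) x) i) -
      (N:ℝ) * ((gradient (u k) x) i - (g x) i) := by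
    funext x; ring
  rw [h2]
  refine (nr_sub_le (h.memLpSum hV (hp.tst k)) hd).trans ?_
  apply add_le_add (h.nr_le hN (hp.tst k) (hp.upos k))
  have hD : MemLp (fun x => (N:ℝ) * ‖gradient (u k) x - g x‖) 2 volume :=
    (pair_diff_memLp hp k).const_mul (N:ℝ)
  refine (nr_mono (hD.restrict Ω) ?_).trans ((nr_restrict_le hD Ω).trans ?_)
  · filter_upwards with x
    rw [abs_mul, abs_mul, abs_of_nonneg (norm_nonneg (gradient (u k) x - g x))]
    apply mul_le_mul_of_nonneg_left _ (abs_nonneg _)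
    exact PiLp.norm_apply_le (gradient (u k) x - g x) i
  · unfold nr
    simp only [mul_pow]
    rw [integral_const_mul, Real.sqrt_mul (by positivity), Real.sqrt_sq (by positivity)]

lemma lam_nonneg (h : DirData n Ω i T A) (s : ℝ) : 0 ≤ A s / be n (T s) :=
  div_nonneg (h.A0 s) (be_nonneg _ _)

lemma gg_intervalIntegrable (h : DirData n Ω i T A) {s₁ s₂ : ℝ} (hs : s₁ ≤ s₂)
    (hi : IntervalIntegrable (fun s => A s / be n (T s)) volume s₁ s₂) :
    IntervalIntegrable (fun s => gg (A s / be n (T s))) volume s₁ s₂ := by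
  rw [intervalIntegrable_iff_integrableOn_Icc_of_le hs] at hi ⊢
  refine Integrable.mono' (g := fun s => (1 + A s / be n (T s)) / 2)
    (((integrable_const (1:ℝ)).add hi).div_const 2)
    (gg_continuous.comp_aestronglyMeasurable hi.aestronglyMeasurable) ?_
  filter_upwards with s
  rw [Real.norm_eq_abs, abs_of_nonneg (gg_nonneg _)]
  exact gg_le (lam_nonneg h s)

lemma slab_int_lim (hp : Pair Ω u w g) (hEL : ∫ x, ‖g x‖ ^ 2 = ∫ x, w x) (h : DirData n Ω i T A)
    (hn : 1 ≤ n) (hN : 0 < N) (hV : volume Ω = ENNReal.ofReal (om N)) {a s₁ s₂ : ℝ}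
    (hs : s₁ ≤ s₂) (ha : ∀ s ∈ Icc s₁ s₂, |T s| ≤ a)
    (hgi : IntervalIntegrable (fun s => gg (A s / be n (T s))) volume s₁ s₂) :
    (bt n a / N - Real.sqrt (om N) * Real.sqrt (TB N 1 - ∫ x, w x)) *
      (∫ s in s₁..s₂, gg (A s / be n (T s))) ≤ N / 2 * (TB N 1 - ∫ x, w x) := by
  have h1 := (((pair_e_tendsto hp hEL).sqrt.const_mul (Real.sqrt (om N))).const_sub
    (bt n a / N)).mul_const (∫ s in s₁..s₂, gg (A s / be n (T s)))
  have h2 := (pair_e_tendsto hp hEL).const_mul ((N:ℝ) / 2)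
  exact le_of_tendsto_of_tendsto' h1 h2 fun k =>
    h.slab_int hn hN hp.isOpen hV (hp.tst k) (hp.upos k) hs ha hgi

end pair

/-- parameters -/
noncomputable def aa (N : ℕ) : ℝ := 1 - 1 / (16 * N)

noncomputable def bh (N : ℕ) : ℝ := Real.sqrt (1 - aa N ^ 2) ^ (N + 1) / (2 * (N + 1))

noncomputable def smallC (N : ℕ) : ℝ := om N * bh N ^ 2 / (10 ^ 6 * N ^ 5)

lemma aa_bounds {N : ℕ} (hN : 2 ≤ N) : 31 / 32 ≤ aa N ∧ aa N < 1 := by
  unfold aa
  have hN0 : (2:ℝ) ≤ N := by exact_mod_cast hN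
  have h1 : 1 / (16 * (N:ℝ)) ≤ 1 / 32 := by
    apply one_div_le_one_div_of_le (by norm_num); linarith
  have h2 : 0 < 1 / (16 * (N:ℝ)) := by positivity
  constructor <;> linarith

lemma one_sub_aa_sq_pos {N : ℕ} (hN : 2 ≤ N) : 0 < 1 - aa N ^ 2 := by
  have := aa_bounds hN
  nlinarith

lemma bh_pos {N : ℕ} (hN : 2 ≤ N) : 0 < bh N := by
  unfold bh
  have := Real.sqrt_pos.2 (one_sub_aa_sq_pos hN)
  positivity

lemma bh_le {N : ℕ} (hN : 2 ≤ N) : bh N ≤ 1 / 6 := by
  unfold bh
  have hN0 : (2:ℝ) ≤ N := by exact_mod_cast hN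
  have h1 : Real.sqrt (1 - aa N ^ 2) ≤ 1 := by
    rw [Real.sqrt_le_one]
    nlinarith [sq_nonneg (aa N)]
  have h2 : Real.sqrt (1 - aa N ^ 2) ^ (N + 1) ≤ 1 := pow_le_one₀ (Real.sqrt_nonneg _) h1
  rw [div_le_div_iff₀ (by positivity) (by norm_num)]
  nlinarith

lemma bt_aa {N n : ℕ} (hNn : N = n + 1) : bt n (aa N) = 2 * om n * bh N := by
  unfold bt bh
  subst hNn
  push_cast
  rw [show n + 1 + 1 = n + 2 by ring]
  field_simp
  ring

/-- the output of the one-directional analysis -/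
structure DirOut {N : ℕ} (Ω : Set (E N)) (i : Fin N) (T : ℝ → ℝ) (X s₁ b s₂ : ℝ) : Prop where
  close : ∀ s ∈ Icc s₁ s₂, |T s - (s - b)| ≤ X
  left : s₁ ≤ b - (aa N - X)
  right : b + (aa N - X) ≤ s₂
  slab : volume (Ω ∩ {x : E N | x i ∉ Icc s₁ s₂}) ≤ ENNReal.ofReal (om N / (8 * N))

theorem exists_dirOut {N n : ℕ} (hNn : N = n + 1) (hn : 1 ≤ n) {Ω : Set (E N)}
    {u : ℕ → E N → ℝ} {w : E N → ℝ} {g : E N → E N} (hp : Pair Ω u w g)
    (hEL : ∫ x, ‖g x‖ ^ 2 = ∫ x, w x) {i : Fin N} {T A : ℝ → ℝ} (h : DirData n Ω i T A)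
    (hV : volume Ω = ENNReal.ofReal (om N)) {d : ℝ} (hd0 : 0 < d)
    (hd : TB N 1 - (∫ x, w x) ≤ d) (hds : d ≤ smallC N) :
    ∃ s₁ b s₂, DirOut Ω i T (Real.sqrt (10 * (N ^ 2 * d / (om N * bh N)))) s₁ b s₂ := by
  have hN : 2 ≤ N := by omega
  have hN' : 0 < N := by omega
  have hN0 : (2:ℝ) ≤ N := by exact_mod_cast hN
  have hom := om_pos N
  have hbh := bh_pos hN
  have hbh' := bh_le hN
  obtain ⟨ha1, ha2⟩ := aa_bounds hN
  have ham : aa N ∈ Ioo (-1:ℝ) 1 := ⟨by linarith, ha2⟩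
  have ham' : -aa N ∈ Ioo (-1:ℝ) 1 := ⟨by linarith, by linarith⟩
  obtain ⟨s₁, hs₁⟩ := h.surj _ ham'
  obtain ⟨s₂, hs₂⟩ := h.surj _ ham
  obtain ⟨b, hb⟩ := h.surj 0 ⟨by norm_num, by norm_num⟩
  have h1b : s₁ ≤ b := by
    by_contra hc
    have := h.mono (not_le.1 hc).le
    rw [hs₁, hb] at this
    linarith
  have hb2 : b ≤ s₂ := by
    by_contra hc
    have := h.mono (not_le.1 hc).le
    rw [hs₂, hb] at this
    linarith
  have h12 : s₁ ≤ s₂ := h1b.trans hb2
  have hT : ∀ s ∈ Icc s₁ s₂, |T s| ≤ aa N := by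
    intro s hs
    rw [abs_le]
    exact ⟨by rw [← hs₁]; exact h.mono hs.1, by rw [← hs₂]; exact h.mono hs.2⟩
  have hTm : ∀ s ∈ Icc s₁ s₂, T s ∈ Ioo (-1:ℝ) 1 := by
    intro s hs
    have := abs_le.1 (hT s hs)
    exact ⟨by linarith [this.1], by linarith [this.2]⟩
  obtain ⟨hli, hlv⟩ := h.lam s₁ s₂ h12 (by rw [hs₁]; exact ham') (by rw [hs₂]; exact ham)
  have hgi := gg_intervalIntegrable h h12 hli
  have hlim := slab_int_lim hp hEL h hn hN' hV h12 hT hgi
  set I := ∫ s in s₁..s₂, gg (A s / be n (T s)) with hI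
  have hI0 : 0 ≤ I := intervalIntegral.integral_nonneg h12 fun s _ => gg_nonneg _
  set hh := (N:ℝ) ^ 2 * d / (om N * bh N) with hhdef
  have hhp : 0 < hh := by positivity
  -- the smallness
  have hsm : Real.sqrt (om N) * Real.sqrt (TB N 1 - ∫ x, w x) ≤ om N * bh N / (2 * N) := by
    calc Real.sqrt (om N) * Real.sqrt (TB N 1 - ∫ x, w x) ≤ Real.sqrt (om N) * Real.sqrt d := by
          gcongr
      _ = Real.sqrt (om N * d) := by rw [Real.sqrt_mul hom.le]
      _ ≤ Real.sqrt ((om N * bh N / (2 * N)) ^ 2) := by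
          apply Real.sqrt_le_sqrt
          calc om N * d ≤ om N * smallC N := by gcongr
            _ ≤ (om N * bh N / (2 * N)) ^ 2 := by
                unfold smallC
                rw [show om N * (om N * bh N ^ 2 / (10 ^ 6 * (N:ℝ) ^ 5)) =
                  (om N * bh N) ^ 2 / (10 ^ 6 * (N:ℝ) ^ 5) by ring, div_pow]
                apply div_le_div_of_nonneg_left (by positivity) (by positivity)
                have : (1:ℝ) ≤ N ^ 3 := one_le_pow₀ (by linarith)
                nlinarith [sq_nonneg (N:ℝ), mul_le_mul_of_nonneg_left this (sq_nonneg (N:ℝ))]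
      _ = om N * bh N / (2 * N) := Real.sqrt_sq (by positivity)
  have hbt : om N * bh N / N ≤ bt n (aa N) / N := by
    rw [bt_aa hNn]
    have := h.om_le hn hV
    gcongr
  have hIle : I ≤ hh := by
    have h1 : om N * bh N / (2 * N) * I ≤ N / 2 * d := by
      calc om N * bh N / (2 * N) * I
          = (om N * bh N / N - om N * bh N / (2 * N)) * I := by
            congr 1; field_simp; ring
        _ ≤ (bt n (aa N) / N - Real.sqrt (om N) * Real.sqrt (TB N 1 - ∫ x, w x)) * I := by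
            apply mul_le_mul_of_nonneg_right _ hI0
            linarith
        _ ≤ N / 2 * (TB N 1 - ∫ x, w x) := hlim
        _ ≤ N / 2 * d := by gcongr
    rw [hhdef, le_div_iff₀ (by positivity)]
    have h2 : I * (om N * bh N) = (om N * bh N / (2 * N) * I) * (2 * N) := by field_simp
    rw [h2]
    calc (om N * bh N / (2 * N) * I) * (2 * N) ≤ (N / 2 * d) * (2 * N) := by gcongr
      _ = N ^ 2 * d := by ring
  have hh1 : hh ≤ 1 / 100 := by
    rw [hhdef, div_le_iff₀ (by positivity)]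
    calc (N:ℝ) ^ 2 * d ≤ N ^ 2 * smallC N := by gcongr
      _ ≤ 1 / 100 * (om N * bh N) := by
          unfold smallC
          rw [mul_div_assoc', div_le_iff₀ (by positivity)]
          have : (1:ℝ) ≤ N ^ 3 := one_le_pow₀ (by linarith)
          calc (N:ℝ) ^ 2 * (om N * bh N ^ 2) = (om N * bh N) * N ^ 2 * bh N := by ring
            _ ≤ (om N * bh N) * N ^ 2 * (1 / 6) := by gcongr
            _ ≤ (om N * bh N) * N ^ 2 * (10 ^ 4 * N ^ 3) := by gcongr; linarith
            _ = 1 / 100 * (om N * bh N) * (10 ^ 6 * N ^ 5) := by ring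
  have hX := X_bound h12 hli (fun s _ => lam_nonneg h s) (by rw [← hlv, hs₁, hs₂]; linarith)
    hhp hh1 hIle
  have hli' : IntervalIntegrable (fun s => |A s / be n (T s) - 1|) volume s₁ s₂ :=
    (hli.sub (intervalIntegrable_const (c := (1:ℝ)))).abs
  have hclose : ∀ s ∈ Icc s₁ s₂, |T s - (s - b)| ≤ Real.sqrt (10 * hh) := by
    intro s hs
    refine le_trans ?_ hX
    rcases le_total b s with hbs | hbs
    · obtain ⟨hi', hv'⟩ := h.lam b s hbs (hTm b ⟨h1b, hb2⟩) (hTm s hs)
      have h1 : T s - (s - b) = ∫ x in b..s, (A x / be n (T x) - 1) := by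
        rw [intervalIntegral.integral_sub hi' intervalIntegrable_const, ← hv', hb,
          intervalIntegral.integral_const]
        simp
      rw [h1]
      refine (intervalIntegral.abs_integral_le_integral_abs hbs).trans ?_
      exact intervalIntegral.integral_mono_interval h1b hbs hs.2
        (Eventually.of_forall fun _ => abs_nonneg _) hli'
    · obtain ⟨hi', hv'⟩ := h.lam s b hbs (hTm s hs) (hTm b ⟨h1b, hb2⟩)
      have h1 : T s - (s - b) = -∫ x in s..b, (A x / be n (T x) - 1) := by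
        rw [intervalIntegral.integral_sub hi' intervalIntegrable_const, ← hv', hb,
          intervalIntegral.integral_const]
        simp
        ring
      rw [h1, abs_neg]
      refine (intervalIntegral.abs_integral_le_integral_abs hbs).trans ?_
      exact intervalIntegral.integral_mono_interval hs.1 hbs hb2
        (Eventually.of_forall fun _ => abs_nonneg _) hli'
  refine ⟨s₁, b, s₂, hclose, ?_, ?_, ?_⟩
  · have := (abs_le.1 (hclose s₁ ⟨le_rfl, h12⟩)).1
    rw [hs₁] at this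
    linarith
  · have := (abs_le.1 (hclose s₂ ⟨h12, le_rfl⟩)).2
    rw [hs₂] at this
    linarith
  · refine le_trans (measure_mono ?_) (h.slab hn hN hV (a := aa N) rfl)
    intro x hx
    refine ⟨hx.1, ?_⟩
    show aa N ≤ |T (x i)|
    have hx2 : x i ∉ Icc s₁ s₂ := hx.2
    rw [mem_Icc, not_and_or, not_le, not_le] at hx2
    rcases hx2 with h' | h'
    · have := h.mono h'.le
      rw [hs₁] at this
      exact le_trans (by linarith) (neg_le_abs _)
    · have := h.mono h'.le
      rw [hs₂] at this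
      exact this.trans (le_abs_self _)

end Pool.Agent.Helper64.FKI
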