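import Pool.Agent.Helper64.FK.InnerD
import Pool.Agent.Helper71.FK.Ball

/-! Combination of the directions: the box, the `L²` closeness and the volumes. -/

open MeasureTheory Metric Set Filter Topology
open scoped ENNReal

namespace Pool.Agent.Helper64.FKI

open Pool.Agent.Helper71.FK

noncomputable def rho0 (N : ℕ) : ℝ := 1 - 1 / (8 * N)

def box {N : ℕ} (s₁ s₂ : Fin N → ℝ) : Set (E N) := {x | ∀ i, x i ∈ Icc (s₁ i) (s₂ i)}

lemma box_meas {N : ℕ} (s₁ s₂ : Fin N → ℝ) : MeasurableSet (box s₁ s₂) := by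
  have : box s₁ s₂ = ⋂ i, (fun x : E N => x i) ⁻¹' (Icc (s₁ i) (s₂ i)) := by
    ext x; simp [box]
  rw [this]
  exact MeasurableSet.iInter fun i => (meas_coord i) measurableSet_Icc

noncomputable def dd2 (N : ℕ) (d : ℝ) : ℝ := 22 * N ^ 3 * d / bh N

noncomputable def Zd (N : ℕ) (d : ℝ) : ℝ := 50 * N ^ 3 * d / bh N

section

variable {N n : ℕ} {Ω : Set (E N)} {u : ℕ → E N → ℝ} {w : E N → ℝ} {g : E N → E N}
  {T A : Fin N → ℝ → ℝ} {X d : ℝ} {s₁ s₂ : Fin N → ℝ} {b : E N}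

lemma ball_subset_box (hX : X ≤ 1 / (16 * N)) (ho : ∀ i, DirOut Ω i (T i) X (s₁ i) (b i) (s₂ i)) :
    ball b (rho0 N) ⊆ box s₁ s₂ := by
  intro x hx i
  have h1 : |x i - b i| < rho0 N := by
    have := PiLp.norm_apply_le (x - b) i
    rw [mem_ball, dist_eq_norm] at hx
    rw [Real.norm_eq_abs] at this
    exact this.trans_lt hx
  have h2 : rho0 N ≤ aa N - X := by
    unfold rho0 aa
    have : 1 / (8 * (N:ℝ)) = 1 / (16 * N) + 1 / (16 * N) := by
      rcases eq_or_ne (N:ℝ) 0 with h | h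
      · rw [h]; simp
      · field_simp; norm_num
    linarith
  have h3 := abs_lt.1 h1
  exact ⟨by linarith [(ho i).left, h3.1], by linarith [(ho i).right, h3.2]⟩

lemma finR {S : Set (E N)} (hV : volume Ω = ENNReal.ofReal (om N)) :
    IsFiniteMeasure (volume.restrict (Ω ∩ S)) :=
  ⟨by
    rw [Measure.restrict_apply_univ]
    exact (measure_mono inter_subset_left).trans_lt (fin_of_vol hV).lt_top⟩

lemma real_le {S : Set (E N)} (hV : volume Ω = ENNReal.ofReal (om N)) :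
    (volume.restrict (Ω ∩ S)).real univ ≤ om N := by
  rw [Measure.real, Measure.restrict_apply_univ, ← real_of_vol hV, Measure.real]
  exact ENNReal.toReal_mono (fin_of_vol hV) (measure_mono inter_subset_left)

/-- the field `y - b` is square integrable on the box -/
lemma memLp_coord_diff (hp : Pair Ω u w g) (hV : volume Ω = ENNReal.ofReal (om N))
    (h : ∀ i, DirData n Ω i (T i) (A i)) (ho : ∀ i, DirOut Ω i (T i) X (s₁ i) (b i) (s₂ i))
    (i : Fin N) :
    MemLp (fun y : E N => T i (y i) - (y i - b i)) 2 (volume.restrict (Ω ∩ box s₁ s₂)) ∧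
    nr (volume.restrict (Ω ∩ box s₁ s₂)) (fun y : E N => T i (y i) - (y i - b i)) ≤
      X * Real.sqrt (om N) := by
  have hfin := finR (S := box s₁ s₂) hV
  have hX : 0 ≤ X := by
    have h1 := (ho i).close (b i)
    by_contra hc
    have h2 := (ho i).left
    have h3 := (ho i).right
    rcases le_total (s₁ i) (s₂ i) with h4 | h4
    · have := (ho i).close (s₁ i) ⟨le_rfl, h4⟩
      have := abs_nonneg (T i (s₁ i) - (s₁ i - b i))
      linarith
    · have h5 : 0 ≤ aa N := by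
        unfold aa
        rcases Nat.eq_zero_or_pos N with h6 | h6
        · exact absurd i.2 (by omega)
        · have : (1:ℝ) ≤ N := by exact_mod_cast h6
          have : 1 / (16 * (N:ℝ)) ≤ 1 := by
            rw [div_le_one (by positivity)]; linarith
          linarith
      linarith
  have hm : AEStronglyMeasurable (fun y : E N => T i (y i) - (y i - b i))
      (volume.restrict (Ω ∩ box s₁ s₂)) := by
    apply Measurable.aestronglyMeasurable
    exact (h i).measT.sub ((meas_coord i).sub_const _)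
  have hb : ∀ᵐ y ∂(volume.restrict (Ω ∩ box s₁ s₂)), |T i (y i) - (y i - b i)| ≤ X := by
    filter_upwards [self_mem_ae_restrict (hp.isOpen.measurableSet.inter (box_meas s₁ s₂))] with y hy
    exact (ho i).close _ (hy.2 i)
  refine ⟨MemLp.of_bound hm X (by simpa [Real.norm_eq_abs] using hb), ?_⟩
  apply nr_le_of_sq (by positivity)
  rw [mul_pow, Real.sq_sqrt (om_pos N).le]
  calc ∫ y in Ω ∩ box s₁ s₂, (T i (y i) - (y i - b i)) ^ 2
      ≤ ∫ y in Ω ∩ box s₁ s₂, X ^ 2 := by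
        apply integral_mono_of_nonneg (Eventually.of_forall fun _ => sq_nonneg _)
          (integrable_const _)
        filter_upwards [hb] with y hy
        exact sq_le_sq' (by linarith [(abs_le.1 hy).1]) (abs_le.1 hy).2
    _ ≤ X ^ 2 * om N := by
        rw [integral_const, smul_eq_mul, mul_comm]
        exact mul_le_mul_of_nonneg_left (real_le hV) (sq_nonneg _)

lemma coord_est (hp : Pair Ω u w g) (hEL : ∫ x, ‖g x‖ ^ 2 = ∫ x, w x) (hN : 0 < N)
    (hV : volume Ω = ENNReal.ofReal (om N))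
    (h : ∀ i, DirData n Ω i (T i) (A i)) (ho : ∀ i, DirOut Ω i (T i) X (s₁ i) (b i) (s₂ i))
    (hd : TB N 1 - (∫ x, w x) ≤ d) (i : Fin N) :
    MemLp (fun y : E N => N * (g y) i + (y i - b i)) 2 (volume.restrict (Ω ∩ box s₁ s₂)) ∧
    nr (volume.restrict (Ω ∩ box s₁ s₂)) (fun y : E N => N * (g y) i + (y i - b i)) ≤
      N * Real.sqrt d + X * Real.sqrt (om N) := by
  obtain ⟨h1, h2⟩ := memLp_coord_diff hp hV h ho i
  have h3 := P4 hp hEL (h i) hN hV
  have h4 := memLpTg hp (h i) hV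
  have h5 : MemLp (fun x : E N => T i (x i) + N * (g x) i) 2 (volume.restrict (Ω ∩ box s₁ s₂)) :=
    h4.mono_measure (Measure.restrict_mono inter_subset_left le_rfl)
  have h6 : (fun y : E N => N * (g y) i + (y i - b i)) = fun y : E N =>
      (T i (y i) + N * (g y) i) - (T i (y i) - (y i - b i)) := by
    funext y; ring
  rw [h6]
  refine ⟨h5.sub h1, (nr_sub_le h5 h1).trans (add_le_add ?_ h2)⟩
  refine (nr_restrict_mono h4 inter_subset_left).trans (h3.trans ?_)
  gcongr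

/-- (3) first half: `∫_{Ω∩box} |N g + (y - b)|² ≤ 22 N³ d / bh` -/
lemma field_est (hN : 2 ≤ N) (hp : Pair Ω u w g) (hEL : ∫ x, ‖g x‖ ^ 2 = ∫ x, w x)
    (hV : volume Ω = ENNReal.ofReal (om N))
    (h : ∀ i, DirData n Ω i (T i) (A i)) (hX : X ^ 2 = 10 * (N ^ 2 * d / (om N * bh N)))
    (ho : ∀ i, DirOut Ω i (T i) X (s₁ i) (b i) (s₂ i)) (hd0 : 0 < d)
    (hd : TB N 1 - (∫ x, w x) ≤ d) :
    MemLp (fun y : E N => ‖(N:ℝ) • g y + (y - b)‖) 2 (volume.restrict (Ω ∩ box s₁ s₂)) ∧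
    nr (volume.restrict (Ω ∩ box s₁ s₂)) (fun y : E N => ‖(N:ℝ) • g y + (y - b)‖) ≤
      Real.sqrt (dd2 N d) := by
  have hN' : 0 < N := by omega
  have hN0 : (2:ℝ) ≤ N := by exact_mod_cast hN
  have hbh := bh_pos hN
  have hbh' := bh_le hN
  have hom := om_pos N
  have hc := fun i => coord_est hp hEL hN' hV h ho hd i
  have hsq : ∀ y : E N, ‖(N:ℝ) • g y + (y - b)‖ ^ 2 = ∑ i, (N * (g y) i + (y i - b i)) ^ 2 := by
    intro y
    rw [EuclideanSpace.norm_sq_eq]
    apply Finset.sum_congr rfl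
    intro i _
    rw [Real.norm_eq_abs, sq_abs]
    rfl
  have hint : Integrable (fun y : E N => ‖(N:ℝ) • g y + (y - b)‖ ^ 2)
      (volume.restrict (Ω ∩ box s₁ s₂)) := by
    simp_rw [hsq]
    exact integrable_finsetSum _ fun i _ => (hc i).1.integrable_sq
  have hmeas : Measurable (fun y : E N => ‖(N:ℝ) • g y + (y - b)‖) :=
    ((hp.gm.const_smul (N:ℝ)).add (measurable_id.sub_const b)).norm
  refine ⟨memLp_iff hmeas.aestronglyMeasurable hint, ?_⟩
  unfold nr
  apply Real.sqrt_le_sqrt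
  simp_rw [hsq]
  rw [integral_finsetSum _ fun i _ => (hc i).1.integrable_sq]
  have hone : ∀ i : Fin N, ∫ y in Ω ∩ box s₁ s₂, (N * (g y) i + (y i - b i)) ^ 2 ≤
      22 * N ^ 2 * d / bh N := by
    intro i
    rw [← nr_sq]
    have h1 := (hc i).2
    have h2 : nr (volume.restrict (Ω ∩ box s₁ s₂)) (fun y : E N => N * (g y) i + (y i - b i)) ^ 2
        ≤ (N * Real.sqrt d + X * Real.sqrt (om N)) ^ 2 := by
      apply pow_le_pow_left₀ (nr_nonneg _ _) h1
    have h3 : (N * Real.sqrt d + X * Real.sqrt (om N)) ^ 2 ≤ 2 * (N ^ 2 * d) +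
        2 * (X ^ 2 * om N) := by
      have h4 : (N * Real.sqrt d) ^ 2 = N ^ 2 * d := by rw [mul_pow, Real.sq_sqrt hd0.le]
      have h5 : (X * Real.sqrt (om N)) ^ 2 = X ^ 2 * om N := by rw [mul_pow, Real.sq_sqrt hom.le]
      rw [← h4, ← h5]
      nlinarith [sq_nonneg (N * Real.sqrt d - X * Real.sqrt (om N))]
    have h4 : 2 * (X ^ 2 * om N) = 20 * (N ^ 2 * d) / bh N := by
      rw [hX]; field_simp; ring
    have h5 : 2 * (N ^ 2 * d) ≤ 2 * (N ^ 2 * d) / bh N := by
      rw [le_div_iff₀ hbh]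
      have : 0 ≤ 2 * (N ^ 2 * d) := by positivity
      nlinarith
    calc _ ≤ _ := h2
      _ ≤ _ := h3
      _ ≤ 2 * (N ^ 2 * d) / bh N + 20 * (N ^ 2 * d) / bh N := by rw [h4]; linarith
      _ = 22 * N ^ 2 * d / bh N := by ring
  calc ∑ i, ∫ y in Ω ∩ box s₁ s₂, (N * (g y) i + (y i - b i)) ^ 2
      ≤ ∑ _i : Fin N, 22 * N ^ 2 * d / bh N := Finset.sum_le_sum fun i _ => hone i
    _ = dd2 N d := by
      rw [Finset.sum_const, Finset.card_univ, Fintype.card_fin, nsmul_eq_mul]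
      unfold dd2
      ring

/-- (3) second half: `√Q` is close to `|y - b|` on `Ω ∩ box` -/
lemma rad_est (hN : 2 ≤ N) (hp : Pair Ω u w g) (hEL : ∫ x, ‖g x‖ ^ 2 = ∫ x, w x)
    (hV : volume Ω = ENNReal.ofReal (om N))
    (h : ∀ i, DirData n Ω i (T i) (A i)) (hX : X ^ 2 = 10 * (N ^ 2 * d / (om N * bh N)))
    (ho : ∀ i, DirOut Ω i (T i) X (s₁ i) (b i) (s₂ i)) (hd0 : 0 < d)
    (hd : TB N 1 - (∫ x, w x) ≤ d)
    (hstar : ∫ x in Ω, (Real.sqrt (1 - 2 * N * w x) - N * ‖g x‖) ^ 2 ≤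
      N * (N + 2) * (TB N 1 - ∫ x, w x)) :
    MemLp (fun y : E N => Real.sqrt (1 - 2 * N * w y) - ‖y - b‖) 2
      (volume.restrict (Ω ∩ box s₁ s₂)) ∧
    nr (volume.restrict (Ω ∩ box s₁ s₂))
      (fun y : E N => Real.sqrt (1 - 2 * N * w y) - ‖y - b‖) ≤ Real.sqrt (Zd N d) := by
  have hN0 : (2:ℝ) ≤ N := by exact_mod_cast hN
  have hbh := bh_pos hN
  have hbh' := bh_le hN
  have hfin0 : IsFiniteMeasure (volume.restrict Ω) :=
    ⟨by rw [Measure.restrict_apply_univ]; exact (fin_of_vol hV).lt_top⟩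
  have hwm : Measurable (fun y : E N => Real.sqrt (1 - 2 * N * w y)) := by
    have := hp.wm
    fun_prop
  have h1 : MemLp (fun y : E N => Real.sqrt (1 - 2 * N * w y) - N * ‖g y‖) 2
      (volume.restrict Ω) := by
    apply MemLp.sub
    · apply MemLp.of_bound hwm.aestronglyMeasurable 1
      filter_upwards with y
      rw [Real.norm_eq_abs, abs_of_nonneg (Real.sqrt_nonneg _), Real.sqrt_le_one]
      have := hp.wpos y
      have : 0 ≤ 2 * (N:ℝ) * w y := by positivity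
      linarith
    · exact ((pair_gn_memLp hp).restrict Ω).const_mul (N:ℝ)
  have h2 : nr (volume.restrict Ω) (fun y : E N => Real.sqrt (1 - 2 * N * w y) - N * ‖g y‖) ≤
      Real.sqrt (N * (N + 2) * d) := by
    unfold nr
    apply Real.sqrt_le_sqrt
    refine hstar.trans ?_
    gcongr
  obtain ⟨h3, h4⟩ := field_est hN hp hEL hV h hX ho hd0 hd
  have h5 : MemLp (fun y : E N => N * ‖g y‖ - ‖y - b‖) 2 (volume.restrict (Ω ∩ box s₁ s₂)) := by
    refine memLp_of_le h3 ?_ ?_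
    · apply Measurable.aestronglyMeasurable
      exact (hp.gm.norm.const_mul (N:ℝ)).sub ((measurable_id.sub_const b).norm)
    · filter_upwards with y
      rw [abs_of_nonneg (norm_nonneg _)]
      have : N * ‖g y‖ = ‖(N:ℝ) • g y‖ := by rw [norm_smul]; simp
      rw [this]
      have h6 : (N:ℝ) • g y + (y - b) = (N:ℝ) • g y - (b - y) := by abel
      rw [h6, norm_sub_rev y b]
      exact abs_norm_sub_norm_le _ _
  have h6 : nr (volume.restrict (Ω ∩ box s₁ s₂)) (fun y : E N => N * ‖g y‖ - ‖y - b‖) ≤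
      Real.sqrt (dd2 N d) := by
    refine (nr_mono h3 ?_).trans h4
    filter_upwards with y
    rw [abs_of_nonneg (norm_nonneg ((N:ℝ) • g y + (y - b)))]
    have : N * ‖g y‖ = ‖(N:ℝ) • g y‖ := by rw [norm_smul]; simp
    rw [this]
    have h6 : (N:ℝ) • g y + (y - b) = (N:ℝ) • g y - (b - y) := by abel
    rw [h6, norm_sub_rev y b]
    exact abs_norm_sub_norm_le _ _
  have h7 : MemLp (fun y : E N => Real.sqrt (1 - 2 * N * w y) - N * ‖g y‖) 2
      (volume.restrict (Ω ∩ box s₁ s₂)) :=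
    h1.mono_measure (Measure.restrict_mono inter_subset_left le_rfl)
  have h8 : (fun y : E N => Real.sqrt (1 - 2 * N * w y) - ‖y - b‖) = fun y =>
      (Real.sqrt (1 - 2 * N * w y) - N * ‖g y‖) + (N * ‖g y‖ - ‖y - b‖) := by
    funext y; ring
  rw [h8]
  refine ⟨h7.add h5, (nr_add_le h7 h5).trans ?_⟩
  have h9 : nr (volume.restrict (Ω ∩ box s₁ s₂))
      (fun y : E N => Real.sqrt (1 - 2 * N * w y) - N * ‖g y‖) ≤ Real.sqrt (N * (N + 2) * d) :=
    (nr_restrict_mono h1 inter_subset_left).trans h2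
  refine (add_le_add h9 h6).trans ?_
  apply Real.le_sqrt_of_sq_le
  have ha : Real.sqrt (N * (N + 2) * d) ^ 2 = N * (N + 2) * d := Real.sq_sqrt (by positivity)
  have hb : Real.sqrt (dd2 N d) ^ 2 = dd2 N d := Real.sq_sqrt (by unfold dd2; positivity)
  have hc : (Real.sqrt (N * (N + 2) * d) + Real.sqrt (dd2 N d)) ^ 2 ≤
      2 * (N * (N + 2) * d) + 2 * dd2 N d := by
    nlinarith [sq_nonneg (Real.sqrt (N * (N + 2) * d) - Real.sqrt (dd2 N d))]
  refine hc.trans ?_
  have hdd : 2 * (N * (N + 2) * d) ≤ 6 * N ^ 3 * d / bh N := by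
    rw [le_div_iff₀ hbh]
    have e1 : (N:ℝ) * (N + 2) ≤ 3 * N ^ 3 := by
      have : (N:ℝ) + 2 ≤ 3 * N ^ 2 := by nlinarith
      nlinarith
    have e2 : 2 * (N * (N + 2) * d) * bh N ≤ 2 * (N * (N + 2) * d) * 1 := by
      apply mul_le_mul_of_nonneg_left (by linarith) (by positivity)
    nlinarith
  unfold dd2 Zd
  calc 2 * (N * (N + 2) * d) + 2 * (22 * N ^ 3 * d / bh N)
      ≤ 6 * N ^ 3 * d / bh N + 2 * (22 * N ^ 3 * d / bh N) := by linarith
    _ = 50 * N ^ 3 * d / bh N := by ring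

end

end Pool.Agent.Helper64.FKI
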