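import Pool.Agent.Helper64.FK.InnerE

/-! Volumes (step (4) of M6b). -/

open MeasureTheory Metric Set Filter Topology
open scoped ENNReal

namespace Pool.Agent.Helper64.FKI

open Pool.Agent.Helper71.FK

lemma Zd_le {N : ℕ} (hN : 2 ≤ N) {d : ℝ} (hds : d ≤ smallC N) :
    Zd N d ≤ om N / (120000 * N ^ 2) := by
  have hN0 : (2:ℝ) ≤ N := by exact_mod_cast hN
  have hbh := bh_pos hN
  have hbh' := bh_le hN
  have hom := om_pos N
  calc Zd N d ≤ Zd N (smallC N) := by unfold Zd; gcongr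
    _ = om N * bh N / (20000 * N ^ 2) := by
        unfold Zd smallC
        field_simp
        ring
    _ ≤ om N * (1 / 6) / (20000 * N ^ 2) := by gcongr
    _ = om N / (120000 * N ^ 2) := by ring

lemma rho0_bounds {N : ℕ} (hN : 2 ≤ N) : 15 / 16 ≤ rho0 N ∧ rho0 N < 1 := by
  unfold rho0
  have hN0 : (2:ℝ) ≤ N := by exact_mod_cast hN
  have h1 : 1 / (8 * (N:ℝ)) ≤ 1 / 16 := by
    apply one_div_le_one_div_of_le (by norm_num); linarith
  have h2 : 0 < 1 / (8 * (N:ℝ)) := by positivity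
  constructor <;> linarith

lemma pow_up {N : ℕ} (hN : 2 ≤ N) : (1 + 1 / (16 * (N:ℝ))) ^ N ≤ 16 / 15 := by
  have hN0 : (2:ℝ) ≤ N := by exact_mod_cast hN
  set x : ℝ := 1 / (16 * (N:ℝ)) with hx
  have hx0 : 0 < x := by positivity
  have hx1 : x ≤ 1 := by
    rw [hx, div_le_one (by positivity)]; linarith
  have h1 : 15 / 16 ≤ (1 - x) ^ N := by
    have := one_add_mul_le_pow (a := -x) (by linarith) N
    have h2 : (N:ℝ) * x = 1 / 16 := by rw [hx]; field_simp
    have h3 : (1 + -x) ^ N = (1 - x) ^ N := by ring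
    rw [h3] at this
    linarith
  have h2 : (1 + x) ^ N * (1 - x) ^ N ≤ 1 := by
    rw [← mul_pow]
    apply pow_le_one₀ (by nlinarith) (by nlinarith)
  have h3 : 0 ≤ (1 + x) ^ N := by positivity
  nlinarith

lemma pow_down {N : ℕ} (hN : 2 ≤ N) : 7 / 8 ≤ rho0 N ^ N := by
  have hN0 : (2:ℝ) ≤ N := by exact_mod_cast hN
  unfold rho0
  set x : ℝ := 1 / (8 * (N:ℝ)) with hx
  have hx0 : 0 < x := by positivity
  have hx1 : x ≤ 1 := by
    rw [hx, div_le_one (by positivity)]; linarith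
  have := one_add_mul_le_pow (a := -x) (by linarith) N
  have h2 : (N:ℝ) * x = 1 / 8 := by rw [hx]; field_simp
  have h3 : (1 + -x) ^ N = (1 - x) ^ N := by ring
  rw [h3] at this
  linarith

section

variable {N n : ℕ} {Ω : Set (E N)} {u : ℕ → E N → ℝ} {w : E N → ℝ} {g : E N → E N}
  {T A : Fin N → ℝ → ℝ} {X d : ℝ} {s₁ s₂ : Fin N → ℝ} {b : E N}

lemma vol_out (hN : 2 ≤ N)
    (ho : ∀ i, DirOut Ω i (T i) X (s₁ i) (b i) (s₂ i)) :
    volume.real (Ω \ box s₁ s₂) ≤ om N / 8 := by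
  have hN0 : (2:ℝ) ≤ N := by exact_mod_cast hN
  have hom := om_pos N
  have h1 : Ω \ box s₁ s₂ ⊆ ⋃ i, (Ω ∩ {x : E N | x i ∉ Icc (s₁ i) (s₂ i)}) := by
    intro x hx
    have h2 : ¬ ∀ i, x i ∈ Icc (s₁ i) (s₂ i) := hx.2
    push Not at h2
    obtain ⟨i, hi⟩ := h2
    exact mem_iUnion.2 ⟨i, hx.1, hi⟩
  have h2 : volume (Ω \ box s₁ s₂) ≤ ENNReal.ofReal (om N / 8) := by
    calc volume (Ω \ box s₁ s₂) ≤ ∑ i, volume (Ω ∩ {x : E N | x i ∉ Icc (s₁ i) (s₂ i)}) :=
          (measure_mono h1).trans (measure_iUnion_fintype_le _ _)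
      _ ≤ ∑ _i : Fin N, ENNReal.ofReal (om N / (8 * N)) := Finset.sum_le_sum fun i _ => (ho i).slab
      _ = ENNReal.ofReal (om N / 8) := by
          rw [Finset.sum_const, Finset.card_univ, Fintype.card_fin, nsmul_eq_mul,
            ← ENNReal.ofReal_natCast, ← ENNReal.ofReal_mul (by positivity)]
          congr 1
          field_simp
  rw [Measure.real]
  exact ENNReal.toReal_le_of_le_ofReal (by positivity) h2

lemma vol_far (hN : 2 ≤ N) (hp : Pair Ω u w g) (hV : volume Ω = ENNReal.ofReal (om N))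
    (hds : d ≤ smallC N)
    (hr : MemLp (fun y : E N => Real.sqrt (1 - 2 * N * w y) - ‖y - b‖) 2
      (volume.restrict (Ω ∩ box s₁ s₂)) ∧
    nr (volume.restrict (Ω ∩ box s₁ s₂))
      (fun y : E N => Real.sqrt (1 - 2 * N * w y) - ‖y - b‖) ≤ Real.sqrt (Zd N d)) (hd0 : 0 < d) :
    volume.real ((Ω ∩ box s₁ s₂) \ ball b (1 + 1 / (16 * N))) ≤ om N / 8 := by
  have hN0 : (2:ℝ) ≤ N := by exact_mod_cast hN
  have hom := om_pos N
  have hbh := bh_pos hN
  set P := Ω ∩ box s₁ s₂ with hP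
  set S := P \ ball b (1 + 1 / (16 * N)) with hS
  have hPm : MeasurableSet P := hp.isOpen.measurableSet.inter (box_meas s₁ s₂)
  have hSm : MeasurableSet S := hPm.diff measurableSet_ball
  have hSf : volume S ≠ ⊤ :=
    ((measure_mono (sdiff_subset.trans inter_subset_left)).trans_lt (fin_of_vol hV).lt_top).ne
  have h1 : (1 / (16 * (N:ℝ))) ^ 2 * volume.real S ≤ Zd N d := by
    calc (1 / (16 * (N:ℝ))) ^ 2 * volume.real S = ∫ y in S, (1 / (16 * (N:ℝ))) ^ 2 := by
          rw [setIntegral_const, smul_eq_mul, mul_comm]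
      _ ≤ ∫ y in S, (Real.sqrt (1 - 2 * N * w y) - ‖y - b‖) ^ 2 := by
          apply setIntegral_mono_on (integrableOn_const hSf)
            (hr.1.integrable_sq.mono_measure (Measure.restrict_mono sdiff_subset le_rfl)) hSm
          intro y hy
          have h2 : 1 + 1 / (16 * (N:ℝ)) ≤ ‖y - b‖ := by
            have := hy.2
            rw [mem_ball, dist_eq_norm, not_lt] at this
            exact this
          have h3 : Real.sqrt (1 - 2 * N * w y) ≤ 1 := by
            rw [Real.sqrt_le_one]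
            have := hp.wpos y
            have : 0 ≤ 2 * (N:ℝ) * w y := by positivity
            linarith
          have h4 : (Real.sqrt (1 - 2 * N * w y) - ‖y - b‖) ^ 2 =
              (‖y - b‖ - Real.sqrt (1 - 2 * N * w y)) ^ 2 := by ring
          rw [h4]
          apply pow_le_pow_left₀ (by positivity)
          linarith
      _ ≤ ∫ y in P, (Real.sqrt (1 - 2 * N * w y) - ‖y - b‖) ^ 2 :=
          setIntegral_mono_set hr.1.integrable_sq (Eventually.of_forall fun _ => sq_nonneg _)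
            sdiff_subset.eventuallyLE
      _ = nr (volume.restrict P) (fun y : E N => Real.sqrt (1 - 2 * N * w y) - ‖y - b‖) ^ 2 :=
          (nr_sq _ _).symm
      _ ≤ Real.sqrt (Zd N d) ^ 2 := pow_le_pow_left₀ (nr_nonneg _ _) hr.2 2
      _ = Zd N d := Real.sq_sqrt (by unfold Zd; positivity)
  have h2 := Zd_le hN hds
  have h3 : volume.real S ≤ (16 * (N:ℝ)) ^ 2 * (om N / (120000 * N ^ 2)) := by
    have h4 : volume.real S = (16 * (N:ℝ)) ^ 2 * ((1 / (16 * (N:ℝ))) ^ 2 * volume.real S) := by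
      field_simp
    rw [h4]
    exact mul_le_mul_of_nonneg_left (h1.trans h2) (by positivity)
  refine h3.trans ?_
  have h5 : (16 * (N:ℝ)) ^ 2 * (om N / (120000 * N ^ 2)) = om N * (256 / 120000) := by
    field_simp
    ring
  rw [h5]
  nlinarith

lemma vol_shell (hN : 2 ≤ N) :
    volume.real (ball b (1 + 1 / (16 * (N:ℝ))) \ ball b (rho0 N)) ≤ om N / 4 := by
  have hN0 : (2:ℝ) ≤ N := by exact_mod_cast hN
  have hom := om_pos N
  obtain ⟨hr1, hr2⟩ := rho0_bounds hN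
  have h0 : 0 < 1 / (16 * (N:ℝ)) := by positivity
  have hsub : ball b (rho0 N) ⊆ ball b (1 + 1 / (16 * (N:ℝ))) := ball_subset_ball (by linarith)
  rw [measureReal_sdiff hsub measurableSet_ball measure_ball_lt_top.ne,
    vol_ball_real (by omega) b (by linarith), vol_ball_real (by omega) b (by positivity)]
  have h1 := pow_up hN
  have h2 := pow_down hN
  nlinarith

/-- (4) -/
lemma vol_half (hN : 2 ≤ N) (hp : Pair Ω u w g) (hV : volume Ω = ENNReal.ofReal (om N))
    (ho : ∀ i, DirOut Ω i (T i) X (s₁ i) (b i) (s₂ i))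
    (hds : d ≤ smallC N)
    (hr : MemLp (fun y : E N => Real.sqrt (1 - 2 * N * w y) - ‖y - b‖) 2
      (volume.restrict (Ω ∩ box s₁ s₂)) ∧
    nr (volume.restrict (Ω ∩ box s₁ s₂))
      (fun y : E N => Real.sqrt (1 - 2 * N * w y) - ‖y - b‖) ≤ Real.sqrt (Zd N d)) (hd0 : 0 < d) :
    om N / 2 ≤ volume.real (Ω ∩ ball b (rho0 N)) := by
  have h1 := vol_out hN ho
  have h2 := vol_far hN hp hV hds hr hd0
  have h3 := vol_shell (b := b) hN
  have hf1 : volume (Ω \ box s₁ s₂) ≠ ⊤ :=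
    ((measure_mono sdiff_subset).trans_lt (fin_of_vol hV).lt_top).ne
  have hsub : Ω ⊆ (Ω \ box s₁ s₂) ∪ ((Ω ∩ box s₁ s₂) \ ball b (1 + 1 / (16 * N))) ∪
      (ball b (1 + 1 / (16 * (N:ℝ))) \ ball b (rho0 N)) ∪ (Ω ∩ ball b (rho0 N)) := by
    intro x hx
    by_cases hb1 : x ∈ box s₁ s₂
    · by_cases hb2 : x ∈ ball b (1 + 1 / (16 * (N:ℝ)))
      · by_cases hb3 : x ∈ ball b (rho0 N)
        · right; exact ⟨hx, hb3⟩
        · left; right; exact ⟨hb2, hb3⟩
      · left; left; right; exact ⟨⟨hx, hb1⟩, hb2⟩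
    · left; left; left; exact ⟨hx, hb1⟩
  have h4 : volume.real Ω ≤ volume.real ((Ω \ box s₁ s₂) ∪
      ((Ω ∩ box s₁ s₂) \ ball b (1 + 1 / (16 * N))) ∪
      (ball b (1 + 1 / (16 * (N:ℝ))) \ ball b (rho0 N)) ∪ (Ω ∩ ball b (rho0 N))) := by
    refine measureReal_mono hsub ?_
    refine ((measure_union_lt_top_iff).2 ⟨(measure_union_lt_top_iff).2
      ⟨(measure_union_lt_top_iff).2 ⟨hf1.lt_top, ?_⟩, ?_⟩, ?_⟩).ne
    · exact (measure_mono (sdiff_subset.trans inter_subset_left)).trans_lt (fin_of_vol hV).lt_top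
    · exact (measure_mono sdiff_subset).trans_lt measure_ball_lt_top
    · exact (measure_mono inter_subset_left).trans_lt (fin_of_vol hV).lt_top
  have h5 := (measureReal_union_le ((Ω \ box s₁ s₂) ∪
      ((Ω ∩ box s₁ s₂) \ ball b (1 + 1 / (16 * N))) ∪
      (ball b (1 + 1 / (16 * (N:ℝ))) \ ball b (rho0 N))) (Ω ∩ ball b (rho0 N)) (μ := volume))
  have h6 := (measureReal_union_le ((Ω \ box s₁ s₂) ∪
      ((Ω ∩ box s₁ s₂) \ ball b (1 + 1 / (16 * N))))
      (ball b (1 + 1 / (16 * (N:ℝ))) \ ball b (rho0 N)) (μ := volume))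
  have h7 := (measureReal_union_le (Ω \ box s₁ s₂)
      ((Ω ∩ box s₁ s₂) \ ball b (1 + 1 / (16 * N))) (μ := volume))
  rw [real_of_vol hV] at h4
  linarith

end

end Pool.Agent.Helper64.FKI
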