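import Pool.Agent.Helper64.FK.InnerF
import Pool.Agent.Helper61.FK.Poincare

/-! The Poincaré step (5) of M6b. -/

open MeasureTheory Metric Set Filter Topology
open scoped ENNReal

namespace Pool.Agent.Helper64.FKI

open Pool.Agent.Helper71.FK

section

variable {N : ℕ}

/-- the test function of step (5) -/
noncomputable def ff (N : ℕ) (b : E N) (u : E N → ℝ) (y : E N) : ℝ :=
  cut (rho0 N ^ 2) (2 * N * u y + ‖y - b‖ ^ 2)

lemma rho0_sq_lt {N : ℕ} (hN : 2 ≤ N) : rho0 N ^ 2 < 1 := by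
  obtain ⟨h1, h2⟩ := rho0_bounds hN
  nlinarith

lemma cutC_le {N : ℕ} (hN : 2 ≤ N) : 2 / (1 - rho0 N ^ 2) ≤ 16 * N := by
  have hN0 : (2:ℝ) ≤ N := by exact_mod_cast hN
  have h0 := rho0_sq_lt hN
  obtain ⟨h1, h2⟩ := rho0_bounds hN
  rw [div_le_iff₀ (by linarith)]
  have h3 : 1 - rho0 N = 1 / (8 * N) := by unfold rho0; ring
  have h4 : 1 - rho0 N ^ 2 = (1 / (8 * N)) * (1 + rho0 N) := by rw [← h3]; ring
  rw [h4]
  have h5 : 16 * (N:ℝ) * ((1 / (8 * N)) * (1 + rho0 N)) = 2 * (1 + rho0 N) := by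
    field_simp; norm_num
  rw [h5]
  linarith

lemma ff_contDiff (b : E N) {u : E N → ℝ} (hu : ContDiff ℝ 1 u) : ContDiff ℝ 1 (ff N b u) := by
  unfold ff
  refine cut_contDiff.comp ?_
  exact (contDiff_const.mul hu).add ((contDiff_id.sub contDiff_const).norm_sq ℝ)

lemma ff_nonneg (b : E N) (u : E N → ℝ) (y : E N) : 0 ≤ ff N b u y := cut_nonneg _

lemma ff_le_one (b : E N) (u : E N → ℝ) (y : E N) : ff N b u y ≤ 1 := cut_le_one _

lemma ff_grad {b : E N} {u : E N → ℝ} (hu : ContDiff ℝ 1 u) (y : E N) :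
    ‖gradient (ff N b u) y‖ = |deriv (cut (rho0 N ^ 2)) (2 * N * u y + ‖y - b‖ ^ 2)| *
      (2 * ‖(N:ℝ) • gradient u y + (y - b)‖) := by
  have hu1 : HasGradientAt u (gradient u y) y :=
    ((hu.differentiable one_ne_zero) y).hasGradientAt
  rw [hasGradientAt_iff_hasFDerivAt] at hu1
  have h1 : HasFDerivAt (fun y : E N => ‖y - b‖ ^ 2) ((2:ℝ) • innerSL ℝ (y - b)) y := by
    have := (hasStrictFDerivAt_norm_sq (y - b)).hasFDerivAt.comp y
      ((hasFDerivAt_id y).sub_const b)
    refine this.congr_fderiv ?_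
    ext z
    simp
  have h2 : HasFDerivAt (fun y : E N => 2 * (N:ℝ) * u y + ‖y - b‖ ^ 2)
      ((2 * (N:ℝ)) • (InnerProductSpace.toDual ℝ (E N)) (gradient u y) +
        (2:ℝ) • innerSL ℝ (y - b)) y := (hu1.const_mul _).add h1
  have h3 : HasFDerivAt (ff N b u)
      (deriv (cut (rho0 N ^ 2)) (2 * N * u y + ‖y - b‖ ^ 2) •
        ((2 * (N:ℝ)) • (InnerProductSpace.toDual ℝ (E N)) (gradient u y) +
        (2:ℝ) • innerSL ℝ (y - b))) y := by
    have h4 : HasDerivAt (cut (rho0 N ^ 2))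
        (deriv (cut (rho0 N ^ 2)) (2 * N * u y + ‖y - b‖ ^ 2)) (2 * N * u y + ‖y - b‖ ^ 2) :=
      (cut_hasDerivAt _).differentiableAt.hasDerivAt
    exact h4.comp_hasFDerivAt y h2
  have h5 : (deriv (cut (rho0 N ^ 2)) (2 * N * u y + ‖y - b‖ ^ 2) •
        ((2 * (N:ℝ)) • (InnerProductSpace.toDual ℝ (E N)) (gradient u y) +
        (2:ℝ) • innerSL ℝ (y - b))) = (InnerProductSpace.toDual ℝ (E N))
        (deriv (cut (rho0 N ^ 2)) (2 * N * u y + ‖y - b‖ ^ 2) •
          ((2:ℝ) • ((N:ℝ) • gradient u y + (y - b)))) := by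
    ext z
    simp
    left
    ring
  rw [h5] at h3
  have h6 : HasGradientAt (ff N b u) (deriv (cut (rho0 N ^ 2)) (2 * N * u y + ‖y - b‖ ^ 2) •
          ((2:ℝ) • ((N:ℝ) • gradient u y + (y - b)))) y := hasGradientAt_iff_hasFDerivAt.2 h3
  rw [h6.gradient, norm_smul, norm_smul, Real.norm_eq_abs, Real.norm_eq_abs, abs_two]

variable {Ω : Set (E N)} {b : E N} {u : E N → ℝ}

lemma ff_zero (hN : 2 ≤ N) (hu : Tst Ω u) {y : E N} (hy : y ∉ Ω) (hyb : y ∈ ball b (rho0 N)) :
    ff N b u y = 0 ∧ gradient (ff N b u) y = 0 := by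
  have h1 : u y = 0 := u_zero_of_notMem hu hy
  have h2 : 2 * N * u y + ‖y - b‖ ^ 2 ≤ rho0 N ^ 2 := by
    rw [h1, mul_zero, zero_add]
    rw [mem_ball, dist_eq_norm] at hyb
    exact pow_le_pow_left₀ (norm_nonneg _) hyb.le 2
  refine ⟨cut_zero (rho0_sq_lt hN) h2, ?_⟩
  rw [← norm_eq_zero, ff_grad hu.smooth, cut_deriv_zero (rho0_sq_lt hN) h2]
  simp

lemma ff_grad_le (hN : 2 ≤ N) (hu : ContDiff ℝ 1 u) (y : E N) :
    ‖gradient (ff N b u) y‖ ≤ 32 * N * ‖(N:ℝ) • gradient u y + (y - b)‖ := by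
  rw [ff_grad hu, abs_of_nonneg (cut_deriv_nonneg (rho0_sq_lt hN) _)]
  have h1 := (cut_deriv_le (rho0_sq_lt hN) (2 * N * u y + ‖y - b‖ ^ 2)).trans (cutC_le hN)
  have h2 : 0 ≤ 2 * ‖(N:ℝ) • gradient u y + (y - b)‖ := by positivity
  calc _ ≤ 16 * N * (2 * ‖(N:ℝ) • gradient u y + (y - b)‖) := mul_le_mul_of_nonneg_right h1 h2
    _ = _ := by ring

/-- the Poincaré inequality applied to `ff` -/
lemma poincare_ff (hN : 2 ≤ N) (hΩ : MeasurableSet Ω) (hu : Tst Ω u) :
    volume.real (ball b (rho0 N) \ Ω) * (∫ y in Ω ∩ ball b (rho0 N), ff N b u y) ≤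
      2 ^ (N + 1) * om N * ∫ y in Ω ∩ ball b (rho0 N), ‖gradient (ff N b u) y‖ := by
  set K := ball b (rho0 N) with hK
  set f := ff N b u with hf
  have hN0 : (2:ℝ) ≤ N := by exact_mod_cast hN
  have hom := om_pos N
  obtain ⟨hr1, hr2⟩ := rho0_bounds hN
  have hfc : ContDiff ℝ 1 f := ff_contDiff b hu.smooth
  have hKm : MeasurableSet K := measurableSet_ball
  have hKf : volume K ≠ ⊤ := measure_ball_lt_top.ne
  have hfin : IsFiniteMeasure (volume.restrict K) :=
    ⟨by rw [Measure.restrict_apply_univ]; exact hKf.lt_top⟩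
  have hgc : Continuous (fun x => ‖gradient f x‖) := (grad_cont hfc).norm
  have hgi : IntegrableOn (fun x => ‖gradient f x‖) K := by
    have h1 : IntegrableOn (fun x => ‖gradient f x‖) (closedBall b (rho0 N)) :=
      hgc.continuousOn.integrableOn_compact (isCompact_closedBall _ _)
    exact h1.mono_set ball_subset_closedBall
  have hP := Pool.Agent.Helper61.FK.convex_poincare (K := K) (convex_ball _ _) hKm (D := 2) ?_ hKf hfc hgi
  swap
  · intro x hx y hy
    have h1 := mem_ball.1 hx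
    have h2 := mem_ball.1 hy
    rw [← dist_eq_norm]
    have := dist_triangle_right x y b
    linarith
  have hvK : volume.real K ≤ om N := by
    rw [vol_ball_real (by omega) b (by linarith)]
    have : rho0 N ^ N ≤ 1 := pow_le_one₀ (by linarith) (by linarith)
    nlinarith
  have hg1 : ∫ x in K, ‖gradient f x‖ = ∫ y in Ω ∩ K, ‖gradient f y‖ := by
    rw [inter_comm]
    symm
    apply (setIntegral_eq_of_subset_of_forall_sdiff_eq_zero hKm inter_subset_left ?_).symm
    intro x hx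
    have hxΩ : x ∉ Ω := fun hc => hx.2 ⟨hx.1, hc⟩
    rw [(ff_zero hN hu hxΩ hx.1).2, norm_zero]
  have hf1 : ∫ x in K, f x = ∫ y in Ω ∩ K, f y := by
    rw [inter_comm]
    symm
    apply (setIntegral_eq_of_subset_of_forall_sdiff_eq_zero hKm inter_subset_left ?_).symm
    intro x hx
    have hxΩ : x ∉ Ω := fun hc => hx.2 ⟨hx.1, hc⟩
    exact (ff_zero hN hu hxΩ hx.1).1
  have hfcont : Continuous f := hfc.continuous
  -- integrability of the inner integral
  have hint : Integrable (fun x => ∫ y in K, |f x - f y|) (volume.restrict K) := by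
    have h2 : Integrable (fun p : E N × E N => |f p.1 - f p.2|)
        ((volume.restrict K).prod (volume.restrict K)) := by
      apply Integrable.of_bound (C := 1)
      · exact (by fun_prop : Continuous fun p : E N × E N => |f p.1 - f p.2|).aestronglyMeasurable
      · filter_upwards with p
        rw [Real.norm_eq_abs, abs_abs, abs_le]
        have := ff_nonneg b u p.1
        have := ff_nonneg b u p.2
        have := ff_le_one b u p.1
        have := ff_le_one b u p.2
        constructor <;> linarith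
    exact h2.integral_prod_left
  have hlow : volume.real (K \ Ω) * (∫ x in K, f x) ≤ ∫ x in K, ∫ y in K, |f x - f y| := by
    calc volume.real (K \ Ω) * (∫ x in K, f x) = ∫ x in K \ Ω, (∫ y in K, f y) := by
          rw [setIntegral_const, smul_eq_mul]
      _ = ∫ x in K \ Ω, ∫ y in K, |f x - f y| := by
          apply setIntegral_congr_fun (hKm.diff hΩ)
          intro x hx
          have : f x = 0 := (ff_zero hN hu hx.2 hx.1).1
          simp only [this, zero_sub, abs_neg]
          apply integral_congr_ae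
          filter_upwards with y
          rw [abs_of_nonneg (ff_nonneg _ _ _)]
      _ ≤ ∫ x in K, ∫ y in K, |f x - f y| := by
          apply setIntegral_mono_set hint
            (Eventually.of_forall fun x => integral_nonneg fun y => abs_nonneg _)
            sdiff_subset.eventuallyLE
  rw [hf1] at hlow
  rw [hg1] at hP
  refine hlow.trans (hP.trans ?_)
  have h0 : 0 ≤ ∫ y in Ω ∩ K, ‖gradient f y‖ := integral_nonneg fun _ => norm_nonneg _
  calc 2 ^ N * 2 * volume.real K * ∫ y in Ω ∩ K, ‖gradient f y‖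
      ≤ 2 ^ N * 2 * om N * ∫ y in Ω ∩ K, ‖gradient f y‖ := by gcongr
    _ = _ := by ring

end

end Pool.Agent.Helper64.FKI
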