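import Pool.Agent.Helper64.FK.InnerG

/-! The limit in step (5) of M6b. -/

open MeasureTheory Metric Set Filter Topology
open scoped ENNReal

namespace Pool.Agent.Helper64.FKI

open Pool.Agent.Helper71.FK

section

variable {N : ℕ} {Ω : Set (E N)} {u : ℕ → E N → ℝ} {w : E N → ℝ} {g : E N → E N}
  {d : ℝ} {s₁ s₂ : Fin N → ℝ} {b : E N}

lemma w_le (hN : 2 ≤ N) (hp : Pair Ω u w g)
    (hTal : ∀ s, 0 ≤ s → volume.real {x | s < w x} ≤ om N * (Real.sqrt (1 - 2 * N * s)) ^ N) :
    ∀ᵐ x, 0 ≤ 1 - 2 * N * w x := by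
  have hN0 : (2:ℝ) ≤ N := by exact_mod_cast hN
  have h1 := hTal (1 / (2 * N)) (by positivity)
  have h2 : 1 - 2 * (N:ℝ) * (1 / (2 * N)) = 0 := by field_simp; norm_num
  rw [h2, Real.sqrt_zero, zero_pow (by omega), mul_zero] at h1
  have h3 : volume.real {x | 1 / (2 * (N:ℝ)) < w x} = 0 := le_antisymm h1 measureReal_nonneg
  have hfin : volume {x | 1 / (2 * (N:ℝ)) < w x} ≠ ⊤ := by
    refine ((measure_mono ?_).trans_lt (lt_top_iff_ne_top.2 hp.fin)).ne
    intro x hx
    by_contra hc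
    have h4 : 1 / (2 * (N:ℝ)) < w x := hx
    rw [hp.w0 x hc] at h4
    have : 0 < 1 / (2 * (N:ℝ)) := by positivity
    linarith
  have h4 : volume {x | 1 / (2 * (N:ℝ)) < w x} = 0 := by
    rwa [Measure.real, ENNReal.toReal_eq_zero_iff, or_iff_left hfin] at h3
  have h5 := measure_eq_zero_iff_ae_notMem.1 h4
  filter_upwards [h5] with x hx
  have h6 : w x ≤ 1 / (2 * N) := not_lt.1 hx
  rw [le_div_iff₀ (by positivity)] at h6
  linarith

lemma Q_L1 (hN : 2 ≤ N) (hp : Pair Ω u w g) (hV : volume Ω = ENNReal.ofReal (om N))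
    (hTal : ∀ s, 0 ≤ s → volume.real {x | s < w x} ≤ om N * (Real.sqrt (1 - 2 * N * s)) ^ N)
    (hbox : ball b (rho0 N) ⊆ box s₁ s₂)
    (hr : MemLp (fun y : E N => Real.sqrt (1 - 2 * N * w y) - ‖y - b‖) 2
      (volume.restrict (Ω ∩ box s₁ s₂)) ∧
    nr (volume.restrict (Ω ∩ box s₁ s₂))
      (fun y : E N => Real.sqrt (1 - 2 * N * w y) - ‖y - b‖) ≤ Real.sqrt (Zd N d)) :
    IntegrableOn (fun y : E N => |1 - 2 * N * w y - ‖y - b‖ ^ 2|) (Ω ∩ ball b (rho0 N)) ∧
    ∫ y in Ω ∩ ball b (rho0 N), |1 - 2 * N * w y - ‖y - b‖ ^ 2| ≤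
      2 * (Real.sqrt (om N) * Real.sqrt (Zd N d)) := by
  have hN0 : (2:ℝ) ≤ N := by exact_mod_cast hN
  have hfin := finR (S := box s₁ s₂) hV
  obtain ⟨hr1, hr2⟩ := rho0_bounds hN
  have hsub : Ω ∩ ball b (rho0 N) ⊆ Ω ∩ box s₁ s₂ := inter_subset_inter_right _ hbox
  have hi1 : IntegrableOn (fun y : E N => |Real.sqrt (1 - 2 * N * w y) - ‖y - b‖|)
      (Ω ∩ box s₁ s₂) := (hr.1.integrable (by norm_num)).abs
  have hi2 := (hi1.mono_set hsub).const_mul 2
  have hKm : MeasurableSet (Ω ∩ ball b (rho0 N)) := hp.isOpen.measurableSet.inter measurableSet_ball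
  have hpt : ∀ᵐ y ∂(volume.restrict (Ω ∩ ball b (rho0 N))),
      |1 - 2 * N * w y - ‖y - b‖ ^ 2| ≤ 2 * |Real.sqrt (1 - 2 * N * w y) - ‖y - b‖| := by
    filter_upwards [ae_restrict_of_ae (w_le hN hp hTal), self_mem_ae_restrict hKm] with y hy hyK
    have h1 : 1 - 2 * N * w y - ‖y - b‖ ^ 2 = (Real.sqrt (1 - 2 * N * w y) - ‖y - b‖) *
        (Real.sqrt (1 - 2 * N * w y) + ‖y - b‖) := by
      have := Real.sq_sqrt hy
      linear_combination -this
    have h2 : Real.sqrt (1 - 2 * N * w y) ≤ 1 := by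
      rw [Real.sqrt_le_one]
      have := hp.wpos y
      have : 0 ≤ 2 * (N:ℝ) * w y := by positivity
      linarith
    have h3 : ‖y - b‖ < 1 := by
      have := mem_ball.1 hyK.2
      rw [dist_eq_norm] at this
      linarith
    rw [h1, abs_mul, mul_comm]
    apply mul_le_mul_of_nonneg_right _ (abs_nonneg _)
    rw [abs_of_nonneg (by positivity)]
    linarith
  have hm : Measurable (fun y : E N => |1 - 2 * N * w y - ‖y - b‖ ^ 2|) := by
    have := hp.wm
    have h5 : Measurable (fun y : E N => 1 - 2 * N * w y - ‖y - b‖ ^ 2) := by fun_prop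
    exact h5.abs
  refine ⟨Integrable.mono' hi2 hm.aestronglyMeasurable ?_, ?_⟩
  · filter_upwards [hpt] with y hy
    rw [Real.norm_eq_abs, abs_abs]
    exact hy
  · calc ∫ y in Ω ∩ ball b (rho0 N), |1 - 2 * N * w y - ‖y - b‖ ^ 2|
        ≤ ∫ y in Ω ∩ ball b (rho0 N), 2 * |Real.sqrt (1 - 2 * N * w y) - ‖y - b‖| :=
          integral_mono_of_nonneg (Eventually.of_forall fun _ => abs_nonneg _) hi2 hpt
      _ = 2 * ∫ y in Ω ∩ ball b (rho0 N), |Real.sqrt (1 - 2 * N * w y) - ‖y - b‖| :=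
          integral_const_mul _ _
      _ ≤ 2 * ∫ y in Ω ∩ box s₁ s₂, |Real.sqrt (1 - 2 * N * w y) - ‖y - b‖| := by
          apply mul_le_mul_of_nonneg_left _ (by norm_num)
          exact setIntegral_mono_set hi1 (Eventually.of_forall fun _ => abs_nonneg _)
            hsub.eventuallyLE
      _ ≤ 2 * (Real.sqrt (om N) * Real.sqrt (Zd N d)) := by
          apply mul_le_mul_of_nonneg_left _ (by norm_num)
          refine (int_abs_le hr.1).trans ?_
          apply mul_le_mul (Real.sqrt_le_sqrt (real_le hV)) hr.2 (nr_nonneg _ _)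
            (Real.sqrt_nonneg _)

lemma ff_low (hN : 2 ≤ N) (hp : Pair Ω u w g) (hV : volume Ω = ENNReal.ofReal (om N))
    (hTal : ∀ s, 0 ≤ s → volume.real {x | s < w x} ≤ om N * (Real.sqrt (1 - 2 * N * s)) ^ N)
    (hbox : ball b (rho0 N) ⊆ box s₁ s₂)
    (hr : MemLp (fun y : E N => Real.sqrt (1 - 2 * N * w y) - ‖y - b‖) 2
      (volume.restrict (Ω ∩ box s₁ s₂)) ∧
    nr (volume.restrict (Ω ∩ box s₁ s₂))
      (fun y : E N => Real.sqrt (1 - 2 * N * w y) - ‖y - b‖) ≤ Real.sqrt (Zd N d)) (k : ℕ) :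
    volume.real (Ω ∩ ball b (rho0 N)) - 16 * N * (2 * (Real.sqrt (om N) * Real.sqrt (Zd N d)) +
      2 * N * ∫ x, |u k x - w x|) ≤ ∫ y in Ω ∩ ball b (rho0 N), ff N b (u k) y := by
  have hN0 : (2:ℝ) ≤ N := by exact_mod_cast hN
  set KO := Ω ∩ ball b (rho0 N) with hKO
  have hKm : MeasurableSet KO := hp.isOpen.measurableSet.inter measurableSet_ball
  have hKf : volume KO ≠ ⊤ :=
    ((measure_mono inter_subset_left).trans_lt (lt_top_iff_ne_top.2 hp.fin)).ne
  have hfin : IsFiniteMeasure (volume.restrict KO) :=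
    ⟨by rw [Measure.restrict_apply_univ]; exact hKf.lt_top⟩
  obtain ⟨hQ1, hQ2⟩ := Q_L1 hN hp hV hTal hbox hr
  have hfc : Continuous (ff N b (u k)) := (ff_contDiff b (hp.tst k).smooth).continuous
  have hfi : Integrable (ff N b (u k)) (volume.restrict KO) := by
    apply Integrable.of_bound (C := 1) hfc.aestronglyMeasurable
    filter_upwards with y
    rw [Real.norm_eq_abs, abs_of_nonneg (ff_nonneg _ _ _)]
    exact ff_le_one _ _ _
  have hui : Integrable (fun x => |u k x - w x|) := ((u_int (hp.tst k)).sub hp.wint).abs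
  have h1 : ∫ y in KO, (1 - ff N b (u k) y) ≤
      16 * N * (2 * (Real.sqrt (om N) * Real.sqrt (Zd N d)) + 2 * N * ∫ x, |u k x - w x|) := by
    calc ∫ y in KO, (1 - ff N b (u k) y)
        ≤ ∫ y in KO, 16 * N * (|1 - 2 * N * w y - ‖y - b‖ ^ 2| + 2 * N * |u k y - w y|) := by
          apply integral_mono_of_nonneg
          · exact Eventually.of_forall fun y => sub_nonneg.2 (ff_le_one _ _ _)
          · exact (hQ1.add (hui.integrableOn.const_mul _)).const_mul _
          · filter_upwards with y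
            refine (one_sub_cut_le (rho0_sq_lt hN) _).trans ?_
            apply mul_le_mul (cutC_le hN) _ (abs_nonneg _) (by positivity)
            have h2 : 1 - (2 * N * u k y + ‖y - b‖ ^ 2) =
                (1 - 2 * N * w y - ‖y - b‖ ^ 2) - 2 * N * (u k y - w y) := by ring
            rw [h2]
            refine (abs_sub _ _).trans ?_
            rw [abs_mul (2 * (N:ℝ)), abs_of_nonneg (show (0:ℝ) ≤ 2 * N by positivity)]
      _ = 16 * N * ((∫ y in KO, |1 - 2 * N * w y - ‖y - b‖ ^ 2|) +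
          2 * N * ∫ y in KO, |u k y - w y|) := by
          rw [integral_const_mul, integral_add hQ1 (hui.integrableOn.const_mul _),
            integral_const_mul]
      _ ≤ _ := by
          have h3 : ∫ y in KO, |u k y - w y| ≤ ∫ x, |u k x - w x| :=
            setIntegral_le_integral hui (Eventually.of_forall fun _ => abs_nonneg _)
          gcongr
  rw [integral_sub (integrable_const _) hfi, setIntegral_const, smul_eq_mul, mul_one] at h1
  linarith

lemma ff_up (hN : 2 ≤ N) (hp : Pair Ω u w g) (hV : volume Ω = ENNReal.ofReal (om N))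
    (hbox : ball b (rho0 N) ⊆ box s₁ s₂)
    (hf : MemLp (fun y : E N => ‖(N:ℝ) • g y + (y - b)‖) 2 (volume.restrict (Ω ∩ box s₁ s₂)) ∧
    nr (volume.restrict (Ω ∩ box s₁ s₂)) (fun y : E N => ‖(N:ℝ) • g y + (y - b)‖) ≤
      Real.sqrt (dd2 N d)) (k : ℕ) :
    ∫ y in Ω ∩ ball b (rho0 N), ‖gradient (ff N b (u k)) y‖ ≤
      32 * N * (Real.sqrt (om N) * (Real.sqrt (dd2 N d) +
        N * nr volume (fun x => ‖gradient (u k) x - g x‖))) := by
  have hN0 : (2:ℝ) ≤ N := by exact_mod_cast hN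
  have hfin := finR (S := box s₁ s₂) hV
  have hsub : Ω ∩ ball b (rho0 N) ⊆ Ω ∩ box s₁ s₂ := inter_subset_inter_right _ hbox
  set P := Ω ∩ box s₁ s₂ with hP
  have hd := pair_diff_memLp hp k
  have hdN : MemLp (fun x => (N:ℝ) * ‖gradient (u k) x - g x‖) 2 volume := hd.const_mul (N:ℝ)
  have hsum := hf.1.add (hdN.restrict P)
  have hpt : ∀ y : E N, ‖(N:ℝ) • gradient (u k) y + (y - b)‖ ≤
      ‖(N:ℝ) • g y + (y - b)‖ + N * ‖gradient (u k) y - g y‖ := by
    intro y
    have h1 : (N:ℝ) • gradient (u k) y + (y - b) = ((N:ℝ) • g y + (y - b)) +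
        (N:ℝ) • (gradient (u k) y - g y) := by
      rw [smul_sub]; abel
    rw [h1]
    refine (norm_add_le _ _).trans ?_
    rw [norm_smul ((N:ℝ)) (gradient (u k) y - g y)]
    simp
  have hmem : MemLp (fun y : E N => ‖(N:ℝ) • gradient (u k) y + (y - b)‖) 2
      (volume.restrict P) := by
    refine memLp_of_le hsum ?_ ?_
    · apply Continuous.aestronglyMeasurable
      have := grad_cont (hp.tst k).smooth
      fun_prop
    · filter_upwards with y
      rw [abs_of_nonneg (norm_nonneg _)]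
      exact (hpt y).trans (le_abs_self _)
  have hnr : nr (volume.restrict P) (fun y : E N => ‖(N:ℝ) • gradient (u k) y + (y - b)‖) ≤
      Real.sqrt (dd2 N d) + N * nr volume (fun x => ‖gradient (u k) x - g x‖) := by
    refine (nr_mono hsum ?_).trans ((nr_add_le hf.1 (hdN.restrict P)).trans
      (add_le_add hf.2 ((nr_restrict_le hdN P).trans ?_)))
    · filter_upwards with y
      rw [abs_of_nonneg (norm_nonneg _)]
      exact (hpt y).trans (le_abs_self _)
    · unfold nr
      simp only [mul_pow]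
      rw [integral_const_mul, Real.sqrt_mul (by positivity), Real.sqrt_sq (by positivity)]
  have hi1 : IntegrableOn (fun y : E N => ‖(N:ℝ) • gradient (u k) y + (y - b)‖) P :=
    hmem.integrable (by norm_num)
  calc ∫ y in Ω ∩ ball b (rho0 N), ‖gradient (ff N b (u k)) y‖
      ≤ ∫ y in Ω ∩ ball b (rho0 N), 32 * N * ‖(N:ℝ) • gradient (u k) y + (y - b)‖ := by
        apply integral_mono_of_nonneg (Eventually.of_forall fun _ => norm_nonneg _)
        · exact (hi1.mono_set hsub).const_mul _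
        · filter_upwards with y
          exact ff_grad_le hN (hp.tst k).smooth y
    _ = 32 * N * ∫ y in Ω ∩ ball b (rho0 N), ‖(N:ℝ) • gradient (u k) y + (y - b)‖ :=
        integral_const_mul _ _
    _ ≤ 32 * N * ∫ y in P, ‖(N:ℝ) • gradient (u k) y + (y - b)‖ := by
        apply mul_le_mul_of_nonneg_left _ (by positivity)
        exact setIntegral_mono_set hi1 (Eventually.of_forall fun _ => norm_nonneg _)
          hsub.eventuallyLE
    _ = 32 * N * ∫ y in P, |‖(N:ℝ) • gradient (u k) y + (y - b)‖| := by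
        simp only [abs_norm]
    _ ≤ _ := by
        apply mul_le_mul_of_nonneg_left _ (by positivity)
        refine (int_abs_le hmem).trans ?_
        apply mul_le_mul (Real.sqrt_le_sqrt (real_le hV)) hnr (nr_nonneg _ _)
          (Real.sqrt_nonneg _)

/-- (5): `K \ Ω` is small -/
lemma vol_KO (hN : 2 ≤ N) (hp : Pair Ω u w g) (hV : volume Ω = ENNReal.ofReal (om N))
    (hTal : ∀ s, 0 ≤ s → volume.real {x | s < w x} ≤ om N * (Real.sqrt (1 - 2 * N * s)) ^ N)
    (hbox : ball b (rho0 N) ⊆ box s₁ s₂)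
    (hf : MemLp (fun y : E N => ‖(N:ℝ) • g y + (y - b)‖) 2 (volume.restrict (Ω ∩ box s₁ s₂)) ∧
    nr (volume.restrict (Ω ∩ box s₁ s₂)) (fun y : E N => ‖(N:ℝ) • g y + (y - b)‖) ≤
      Real.sqrt (dd2 N d))
    (hr : MemLp (fun y : E N => Real.sqrt (1 - 2 * N * w y) - ‖y - b‖) 2
      (volume.restrict (Ω ∩ box s₁ s₂)) ∧
    nr (volume.restrict (Ω ∩ box s₁ s₂))
      (fun y : E N => Real.sqrt (1 - 2 * N * w y) - ‖y - b‖) ≤ Real.sqrt (Zd N d))
    (hhalf : om N / 2 ≤ volume.real (Ω ∩ ball b (rho0 N)))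
    (hd0 : 0 < d) (hds : d ≤ smallC N) :
    volume.real (ball b (rho0 N) \ Ω) ≤
      2 ^ (N + 8) * N * (Real.sqrt (om N) * Real.sqrt (Zd N d)) := by
  have hN0 : (2:ℝ) ≤ N := by exact_mod_cast hN
  have hom := om_pos N
  have hbh := bh_pos hN
  set vK := volume.real (ball b (rho0 N) \ Ω) with hvK
  have hvK0 : 0 ≤ vK := measureReal_nonneg
  set S := Real.sqrt (om N) * Real.sqrt (Zd N d) with hS
  have hlim : vK * (om N / 2 - 16 * N * (2 * S + 2 * N * 0)) ≤
      2 ^ (N + 1) * om N * (32 * N * (Real.sqrt (om N) * (Real.sqrt (dd2 N d) + N * 0))) := by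
    have hL : Tendsto (fun k => vK * (om N / 2 - 16 * N * (2 * S + 2 * N * ∫ x, |u k x - w x|)))
        atTop (𝓝 (vK * (om N / 2 - 16 * N * (2 * S + 2 * N * 0)))) := by
      exact (((((hp.limw.const_mul (2 * (N:ℝ))).const_add (2 * S)).const_mul (16 * (N:ℝ))).const_sub
        (om N / 2)).const_mul vK)
    have hR : Tendsto (fun k => 2 ^ (N + 1) * om N * (32 * N * (Real.sqrt (om N) *
        (Real.sqrt (dd2 N d) + N * nr volume (fun x => ‖gradient (u k) x - g x‖)))))
        atTop (𝓝 (2 ^ (N + 1) * om N * (32 * N * (Real.sqrt (om N) *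
          (Real.sqrt (dd2 N d) + N * 0))))) := by
      exact (((((pair_nr_diff hp).const_mul (N:ℝ)).const_add (Real.sqrt (dd2 N d))).const_mul
        (Real.sqrt (om N))).const_mul (32 * (N:ℝ))).const_mul (2 ^ (N + 1) * om N)
    refine le_of_tendsto_of_tendsto' hL hR fun k => ?_
    have h1 := ff_low hN hp hV hTal hbox hr k
    have h2 := ff_up hN hp hV hbox hf k
    have h3 := poincare_ff (b := b) hN hp.isOpen.measurableSet (hp.tst k)
    calc vK * (om N / 2 - 16 * N * (2 * S + 2 * N * ∫ x, |u k x - w x|))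
        ≤ vK * (∫ y in Ω ∩ ball b (rho0 N), ff N b (u k) y) := by
          apply mul_le_mul_of_nonneg_left _ hvK0
          linarith
      _ ≤ 2 ^ (N + 1) * om N * ∫ y in Ω ∩ ball b (rho0 N), ‖gradient (ff N b (u k)) y‖ := h3
      _ ≤ _ := mul_le_mul_of_nonneg_left h2 (by positivity)
  have hZ : Zd N d ≤ om N / (120000 * N ^ 2) := Zd_le hN hds
  have hZ0 : 0 ≤ Zd N d := by unfold Zd; positivity
  have hS1 : S ≤ om N / (128 * N) := by
    rw [hS, ← Real.sqrt_mul hom.le, ← Real.sqrt_sq (show 0 ≤ om N / (128 * (N:ℝ)) by positivity)]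
    apply Real.sqrt_le_sqrt
    calc om N * Zd N d ≤ om N * (om N / (120000 * N ^ 2)) := by gcongr
      _ = om N ^ 2 / (120000 * N ^ 2) := by ring
      _ ≤ om N ^ 2 / (16384 * N ^ 2) := by gcongr; norm_num
      _ = (om N / (128 * N)) ^ 2 := by ring
  have h32 : 32 * N * S ≤ om N / 4 := by
    calc 32 * N * S ≤ 32 * N * (om N / (128 * N)) := by gcongr
      _ = om N / 4 := by field_simp; norm_num
  have hdd : Real.sqrt (dd2 N d) ≤ Real.sqrt (Zd N d) := by
    apply Real.sqrt_le_sqrt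
    unfold dd2 Zd
    gcongr
    norm_num
  have h1 : vK * (om N / 4) ≤ 2 ^ (N + 1) * om N * (32 * N * S) := by
    calc vK * (om N / 4) ≤ vK * (om N / 2 - 16 * N * (2 * S + 2 * N * 0)) := by
          apply mul_le_mul_of_nonneg_left _ hvK0
          linarith
      _ ≤ 2 ^ (N + 1) * om N * (32 * N * (Real.sqrt (om N) * (Real.sqrt (dd2 N d) + N * 0))) :=
          hlim
      _ ≤ 2 ^ (N + 1) * om N * (32 * N * S) := by
          rw [mul_zero, add_zero, hS]
          gcongr
  have h2 : 2 ^ (N + 1) * om N * (32 * N * S) = (2 ^ (N + 8) * N * S) * (om N / 4) := by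
    rw [pow_add, pow_add]; ring
  rw [h2] at h1
  exact le_of_mul_le_mul_right h1 (by positivity)

end

end Pool.Agent.Helper64.FKI
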