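import Pool.Agent.Helper64.FK.InnerH

/-! Step (6) of M6b and the core theorem. -/

open MeasureTheory Metric Set Filter Topology
open scoped ENNReal

namespace Pool.Agent.Helper64.FKI

open Pool.Agent.Helper71.FK

section

variable {N : ℕ} {Ω : Set (E N)} {u : ℕ → E N → ℝ} {w : E N → ℝ} {g : E N → E N}
  {d : ℝ} {b : E N}

lemma symm_le (hN : 2 ≤ N) (hp : Pair Ω u w g)
    (hTal : ∀ s, 0 ≤ s → volume.real {x | s < w x} ≤ om N * (Real.sqrt (1 - 2 * N * s)) ^ N)
    {p : ℝ} (hp1 : p < 1) :
    volume.real (symmDiff {y | 1 - 2 * N * w y < p} (ball b (Real.sqrt p))) ≤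
      2 * volume.real (ball b (Real.sqrt p) \ {y | 1 - 2 * N * w y < p}) := by
  have hN0 : (2:ℝ) ≤ N := by exact_mod_cast hN
  set Ep : Set (E N) := {y | 1 - 2 * N * w y < p} with hEp
  set B := ball b (Real.sqrt p) with hB
  have hEpm : MeasurableSet Ep := by
    have := hp.wm
    exact measurableSet_lt (by fun_prop) measurable_const
  have hBm : MeasurableSet B := measurableSet_ball
  have hBf : volume B ≠ ⊤ := measure_ball_lt_top.ne
  have hEset : Ep = {x | (1 - p) / (2 * N) < w x} := by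
    ext x
    simp only [hEp, mem_ofPred_eq]
    rw [div_lt_iff₀ (by positivity)]
    constructor <;> intro h <;> linarith
  have hEf : volume Ep ≠ ⊤ := by
    refine ((measure_mono ?_).trans_lt (lt_top_iff_ne_top.2 hp.fin)).ne
    intro x hx
    by_contra hc
    have h4 : 1 - 2 * N * w x < p := hx
    rw [hp.w0 x hc] at h4
    linarith
  have hE : volume.real Ep ≤ volume.real B := by
    rw [hEset, hB, vol_ball_real (by omega) b (Real.sqrt_nonneg _)]
    have h1 := hTal ((1 - p) / (2 * N)) (div_nonneg (by linarith) (by positivity))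
    have h2 : 1 - 2 * (N:ℝ) * ((1 - p) / (2 * N)) = p := by field_simp; ring
    rwa [h2] at h1
  have h1 := measureReal_inter_add_sdiff (μ := volume) (s := Ep) (t := B) hBm hEf
  have h2 := measureReal_inter_add_sdiff (μ := volume) (s := B) (t := Ep) hEpm hBf
  rw [inter_comm] at h2
  have h3 : volume.real (symmDiff Ep B) ≤ volume.real (Ep \ B) + volume.real (B \ Ep) := by
    rw [Set.symmDiff_def]
    exact measureReal_union_le _ _
  linarith

/-- (6) -/
lemma fubini6 (hN : 2 ≤ N) (hp : Pair Ω u w g)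
    (hTal : ∀ s, 0 ≤ s → volume.real {x | s < w x} ≤ om N * (Real.sqrt (1 - 2 * N * s)) ^ N)
    (hQi : IntegrableOn (fun y : E N => |1 - 2 * N * w y - ‖y - b‖ ^ 2|)
      (Ω ∩ ball b (rho0 N))) :
    ∫ p in (1 / 4 : ℝ)..(1 / 2),
      volume.real (symmDiff {y | 1 - 2 * N * w y < p} (ball b (Real.sqrt p))) ≤
    2 * ((∫ y in Ω ∩ ball b (rho0 N), |1 - 2 * N * w y - ‖y - b‖ ^ 2|) +
      volume.real (ball b (rho0 N) \ Ω) / 4) := by
  have hN0 : (2:ℝ) ≤ N := by exact_mod_cast hN
  obtain ⟨hr1, hr2⟩ := rho0_bounds hN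
  set K := ball b (rho0 N) with hK
  have hKm : MeasurableSet K := measurableSet_ball
  have hΩm := hp.isOpen.measurableSet
  have hKf : volume K ≠ ⊤ := measure_ball_lt_top.ne
  have hfinK : IsFiniteMeasure (volume.restrict K) :=
    ⟨by rw [Measure.restrict_apply_univ]; exact hKf.lt_top⟩
  set I : Set ℝ := Ioc (1/4) (1/2) with hI
  have hIm : MeasurableSet I := measurableSet_Ioc
  have hfinI : IsFiniteMeasure (volume.restrict I) :=
    ⟨by rw [Measure.restrict_apply_univ, hI]; simp⟩
  set D : Set (ℝ × E N) := {q | ‖q.2 - b‖ < Real.sqrt q.1 ∧ q.1 ≤ 1 - 2 * N * w q.2} with hD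
  have hDm : MeasurableSet D := by
    have := hp.wm
    have m1 : Measurable (fun q : ℝ × E N => ‖q.2 - b‖) := by fun_prop
    have m2 : Measurable (fun q : ℝ × E N => Real.sqrt q.1) := by fun_prop
    have m3 : Measurable (fun q : ℝ × E N => q.1) := by fun_prop
    have m4 : Measurable (fun q : ℝ × E N => 1 - 2 * N * w q.2) := by fun_prop
    exact (measurableSet_lt m1 m2).inter (measurableSet_le m3 m4)
  set χ : ℝ × E N → ℝ := D.indicator (fun _ => 1) with hχ
  have hχm : Measurable χ := measurable_const.indicator hDm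
  have hχi : Integrable χ ((volume.restrict I).prod (volume.restrict K)) := by
    apply Integrable.of_bound (C := 1) hχm.aestronglyMeasurable
    filter_upwards with q
    rw [Real.norm_eq_abs, hχ]
    by_cases hq : q ∈ D
    · rw [indicator_of_mem hq]; simp
    · rw [indicator_of_notMem hq]; simp
  have hχ0 : ∀ q, 0 ≤ χ q := fun q => indicator_nonneg (fun _ _ => zero_le_one) q
  -- the measure of `B_p \ E_p`
  have hmeas : ∀ p ∈ I, volume.real (ball b (Real.sqrt p) \ {y | 1 - 2 * N * w y < p}) =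
      ∫ y in K, χ (p, y) := by
    intro p hpI
    have hset : ball b (Real.sqrt p) \ {y | 1 - 2 * N * w y < p} = {y | (p, y) ∈ D} := by
      ext y
      simp only [hD, Set.mem_sdiff, mem_ball, dist_eq_norm, mem_ofPred_eq, not_lt]
    have hsm : MeasurableSet {y | (p, y) ∈ D} := measurable_prodMk_left hDm
    have hsub : {y | (p, y) ∈ D} ⊆ K := by
      rw [← hset]
      intro y hy
      have h1 := mem_ball.1 hy.1
      rw [hK, mem_ball]
      have h2 : Real.sqrt p ≤ rho0 N := by
        rw [Real.sqrt_le_left (by linarith)]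
        have := hpI.2
        nlinarith
      linarith
    rw [hset]
    have h1 : (fun y => χ (p, y)) = {y | (p, y) ∈ D}.indicator (fun _ => (1:ℝ)) := by
      funext y
      by_cases hy : (p, y) ∈ D
      · rw [hχ, indicator_of_mem hy, indicator_of_mem (show y ∈ {y | (p, y) ∈ D} from hy)]
      · rw [hχ, indicator_of_notMem hy,
          indicator_of_notMem (show y ∉ {y | (p, y) ∈ D} from hy)]
    rw [h1, setIntegral_indicator hsm, setIntegral_const, smul_eq_mul, mul_one,
      inter_eq_right.2 hsub]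
  have h1 : ∫ p in (1 / 4 : ℝ)..(1 / 2),
      volume.real (symmDiff {y | 1 - 2 * N * w y < p} (ball b (Real.sqrt p))) ≤
      ∫ p in I, 2 * ∫ y in K, χ (p, y) := by
    rw [intervalIntegral.integral_of_le (by norm_num)]
    apply integral_mono_of_nonneg (Eventually.of_forall fun _ => measureReal_nonneg)
    · exact hχi.integral_prod_left.const_mul 2
    · filter_upwards [self_mem_ae_restrict hIm] with p hpI
      rw [← hmeas p hpI]
      have hh1 : (1/4:ℝ) < p := hpI.1
      have hh2 : p ≤ 1/2 := hpI.2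
      exact symm_le hN hp hTal (by linarith)
  refine h1.trans ?_
  rw [integral_const_mul]
  apply mul_le_mul_of_nonneg_left _ (by norm_num)
  rw [integral_integral_swap (f := fun p y => χ (p, y)) hχi]
  -- inner estimate
  set H : E N → ℝ := fun y => Ω.indicator (fun y => |1 - 2 * N * w y - ‖y - b‖ ^ 2|) y +
    Ωᶜ.indicator (fun _ => (1 / 4 : ℝ)) y with hH
  have hHi1 : Integrable (Ω.indicator (fun y => |1 - 2 * N * w y - ‖y - b‖ ^ 2|))
      (volume.restrict K) := by
    rw [integrable_indicator_iff hΩm, IntegrableOn, Measure.restrict_restrict hΩm]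
    exact hQi
  have hHi2 : Integrable (Ωᶜ.indicator (fun _ => (1 / 4 : ℝ))) (volume.restrict K) :=
    (integrable_const _).indicator hΩm.compl
  have hinner : ∀ y, (∫ p in I, χ (p, y)) ≤ H y := by
    intro y
    have hsm : MeasurableSet {p : ℝ | (p, y) ∈ D} := measurable_prodMk_right hDm
    have h1 : (fun p => χ (p, y)) = {p | (p, y) ∈ D}.indicator (fun _ => (1:ℝ)) := by
      funext p
      by_cases hy : (p, y) ∈ D
      · rw [hχ, indicator_of_mem hy, indicator_of_mem (show p ∈ {p | (p, y) ∈ D} from hy)]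
      · rw [hχ, indicator_of_notMem hy,
          indicator_of_notMem (show p ∉ {p | (p, y) ∈ D} from hy)]
    rw [h1, setIntegral_indicator hsm, setIntegral_const, smul_eq_mul, mul_one, hH]
    by_cases hyΩ : y ∈ Ω
    · simp only [indicator_of_mem hyΩ, indicator_of_notMem (show y ∉ Ωᶜ from not_not.2 hyΩ),
        add_zero]
      have hsub : I ∩ {p : ℝ | (p, y) ∈ D} ⊆ Ioc (‖y - b‖ ^ 2) (1 - 2 * N * w y) := by
        rintro p ⟨_, hp1, hp2⟩
        exact ⟨(Real.lt_sqrt (norm_nonneg _)).1 hp1, hp2⟩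
      refine (measureReal_mono hsub (by simp)).trans ?_
      rw [Real.volume_real_Ioc]
      exact max_le (le_abs_self _) (abs_nonneg _)
    · simp only [indicator_of_notMem hyΩ, indicator_of_mem (show y ∈ Ωᶜ from hyΩ), zero_add]
      refine (measureReal_mono inter_subset_left (by simp [hI])).trans ?_
      rw [hI, Real.volume_real_Ioc]
      norm_num
  calc ∫ y in K, ∫ p in I, χ (p, y) ≤ ∫ y in K, H y := by
        apply integral_mono_of_nonneg (Eventually.of_forall fun y => integral_nonneg fun p => hχ0 _)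
          (hHi1.add hHi2) (Eventually.of_forall hinner)
    _ = (∫ y in Ω ∩ K, |1 - 2 * N * w y - ‖y - b‖ ^ 2|) + volume.real (K \ Ω) / 4 := by
        rw [integral_add hHi1 hHi2, setIntegral_indicator hΩm, setIntegral_indicator hΩm.compl,
          inter_comm K Ω, setIntegral_const, smul_eq_mul]
        congr 1
        rw [show K ∩ Ωᶜ = K \ Ω from rfl]
        ring

end

/-- M6b, in terms of abstract transport data. -/
theorem partII_core {N n : ℕ} (hNn : N = n + 1) (hn : 1 ≤ n) {Ω : Set (E N)}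
    {u : ℕ → E N → ℝ} {w : E N → ℝ} {g : E N → E N} (hp : Pair Ω u w g)
    (hEL : ∫ x, ‖g x‖ ^ 2 = ∫ x, w x)
    (hTal : ∀ s, 0 ≤ s → volume.real {x | s < w x} ≤ om N * (Real.sqrt (1 - 2 * N * s)) ^ N)
    (hstar : ∫ x in Ω, (Real.sqrt (1 - 2 * N * w x) - N * ‖g x‖) ^ 2 ≤
      N * (N + 2) * (TB N 1 - ∫ x, w x))
    (hV : volume Ω = ENNReal.ofReal (om N))
    {T A : Fin N → ℝ → ℝ} (h : ∀ i, DirData n Ω i (T i) (A i))
    {d : ℝ} (hd0 : 0 < d) (hd : TB N 1 - (∫ x, w x) ≤ d) (hds : d ≤ smallC N) :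
    ∃ b : E N, ∫ p in (1 / 4 : ℝ)..(1 / 2),
      volume.real (symmDiff {y | 1 - 2 * N * w y < p} (ball b (Real.sqrt p))) ≤
        2 ^ (N + 8) * N * Real.sqrt (om N * Zd N d) := by
  have hN : 2 ≤ N := by omega
  have hN0 : (2:ℝ) ≤ N := by exact_mod_cast hN
  have hom := om_pos N
  have hbh := bh_pos hN
  have hbh' := bh_le hN
  choose s₁ b' s₂ ho using fun i => exists_dirOut hNn hn hp hEL (h i) hV hd0 hd hds
  set b : E N := WithLp.toLp 2 b' with hb
  set X := Real.sqrt (10 * (N ^ 2 * d / (om N * bh N))) with hX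
  have hXsq : X ^ 2 = 10 * (N ^ 2 * d / (om N * bh N)) := Real.sq_sqrt (by positivity)
  have hXle : X ≤ 1 / (16 * N) := by
    rw [hX, ← Real.sqrt_sq (show (0:ℝ) ≤ 1 / (16 * N) by positivity)]
    apply Real.sqrt_le_sqrt
    calc 10 * (N ^ 2 * d / (om N * bh N)) ≤ 10 * (N ^ 2 * smallC N / (om N * bh N)) := by gcongr
      _ = bh N / (100000 * N ^ 3) := by
          unfold smallC
          field_simp
          ring
      _ ≤ (1 / 6) / (100000 * N ^ 3) := by gcongr
      _ ≤ (1 / (16 * N)) ^ 2 := by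
          rw [div_pow, one_pow, div_le_div_iff₀ (by positivity) (by positivity)]
          have h1 : (1:ℝ) ≤ N := by linarith
          have h2 : (N:ℝ) ^ 2 * 1 ≤ N ^ 2 * N := mul_le_mul_of_nonneg_left h1 (by positivity)
          nlinarith
  have ho' : ∀ i, DirOut Ω i (T i) X (s₁ i) (b i) (s₂ i) := ho
  have hbox := ball_subset_box hXle ho'
  have hf := field_est hN hp hEL hV h hXsq ho' hd0 hd
  have hr := rad_est hN hp hEL hV h hXsq ho' hd0 hd hstar
  have hhalf := vol_half hN hp hV ho' hds hr hd0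
  have hKO := vol_KO hN hp hV hTal hbox hf hr hhalf hd0 hds
  obtain ⟨hQi, hQ⟩ := Q_L1 hN hp hV hTal hbox hr
  have h6 := fubini6 hN hp hTal hQi
  refine ⟨b, h6.trans ?_⟩
  rw [Real.sqrt_mul hom.le]
  set S := Real.sqrt (om N) * Real.sqrt (Zd N d) with hS
  have hS0 : 0 ≤ S := by positivity
  have h2 : (8:ℝ) ≤ 2 ^ (N + 8) * N := by
    have : (1:ℝ) ≤ 2 ^ N := one_le_pow₀ (by norm_num)
    rw [pow_add]
    nlinarith
  have h3 : 8 * S ≤ 2 ^ (N + 8) * N * S := mul_le_mul_of_nonneg_right h2 hS0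
  linarith

end Pool.Agent.Helper64.FKI
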