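import Pool.Agent.Helper64.FK.InnerI
import Pool.Agent.Helper71.FK.Ind2

/-! `DirData` from helper71's transport, and the final form of M6b. -/

open MeasureTheory Metric Set Filter Topology
open scoped ENNReal

namespace Pool.Agent.Helper64.FKI

open Pool.Agent.Helper71.FK

section

variable {n : ℕ}

lemma be_eq_bt (hn : 1 ≤ n) : be n = Pool.Agent.Helper71.FK.bt n 1 := by
  funext t
  by_cases ht : t ∈ Ioo (-1:ℝ) 1
  · rw [bt_eq ht, be, one_pow]
  · rw [bt_zero ht]
    apply be_zero hn
    by_contra hc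
    exact ht (abs_lt.1 (not_le.1 hc))

lemma marg_eq (i : Fin (n + 1)) {Ω : Set (E (n + 1))} (hΩ : MeasurableSet Ω)
    (hf : volume Ω ≠ ∞) :
    Measure.map (fun x : E (n + 1) => x i) (volume.restrict Ω) =
      volume.withDensity (fun s => ENNReal.ofReal (Am i Ω s)) := by
  ext S hS
  have hc := meas_coord (N := n + 1) i
  rw [Measure.map_apply hc hS, withDensity_apply _ hS, Measure.restrict_apply (hc hS),
    ← ofReal_integral_eq_lintegral_ofReal (Am_integrable i hΩ hf).integrableOn
      (Eventually.of_forall (Am_nonneg i)), setIntegral_Am i hΩ hf hS, Measure.real,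
    ENNReal.ofReal_toReal ((measure_mono inter_subset_left).trans_lt hf.lt_top).ne, inter_comm]
  rfl

lemma flux_eq {i : Fin (n + 1)} {Ω : Set (E (n + 1))} {u : E (n + 1) → ℝ} (hu : Tst Ω u)
    (s : ℝ) : flux u i s = ∫ y : E n, u (ins i s y) := by
  unfold flux
  have hHm : MeasurableSet {x : E (n + 1) | x i ≤ s} :=
    measurableSet_le (meas_coord i) measurable_const
  rw [← integral_indicator hHm, integral_ins' i ((gradi_int hu i).indicator hHm)]
  congr 1
  funext y
  have h1 : (fun t => ({x : E (n + 1) | x i ≤ s}.indicator (fun x => (gradient u x) i))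
      (ins i t y)) = (Iic s).indicator (deriv fun t => u (ins i t y)) := by
    funext t
    have hd : deriv (fun t => u (ins i t y)) t = gradient u (ins i t y) i :=
      (hasDerivAt_line i (hu.smooth.differentiable one_ne_zero _)).deriv
    by_cases ht : t ≤ s
    · rw [indicator_of_mem (show ins i t y ∈ {x : E (n + 1) | x i ≤ s} by
        show ins i t y i ≤ s; rw [ins_same]; exact ht), indicator_of_mem (show t ∈ Iic s from ht), hd]
    · rw [indicator_of_notMem (show ins i t y ∉ {x : E (n + 1) | x i ≤ s} by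
        show ¬ (ins i t y i ≤ s); rw [ins_same]; exact ht),
        indicator_of_notMem (show t ∉ Iic s from ht)]
  rw [h1, integral_indicator measurableSet_Iic]
  exact HasCompactSupport.integral_Iic_deriv_eq (hu.smooth.comp (contDiff_line i y))
    (hu.cpt.comp_isClosedEmbedding (isClosedEmbedding_line i y)) s

lemma gg_le_Gf (hn : 1 ≤ n) {l : ℝ} (hl : 0 < l) : gg l ≤ Gf n l := by
  have h := gg_le_G hn hl
  unfold Gf
  have h1 : l ^ (-(1:ℝ) / n) = (l ^ ((n:ℝ)⁻¹))⁻¹ := by
    rw [← Real.rpow_neg hl.le]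
    congr 1
    ring
  rw [h1] at h
  exact h

theorem dirData_of_trans (hn : 1 ≤ n) {i : Fin (n + 1)} {Ω : Set (E (n + 1))} {T : ℝ → ℝ}
    (hT : Trans i Ω 1 T) : DirData n Ω i T (Am i Ω) where
  Am := Am_measurable i hT.meas
  A0 := Am_nonneg i
  marg := marg_eq i hT.meas hT.fin
  mono := hT.mono
  cont := hT.cont
  mem := hT.mem
  surj := hT.surj
  push := by rw [be_eq_bt hn]; exact hT.map
  lam := by rw [be_eq_bt hn]; exact hT.ac
  D := by
    intro u hu hu0
    rw [be_eq_bt hn]
    obtain ⟨hI, hD⟩ := hT.D_ineq (fun h => SV_all h) hu hu0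
    have hlamm : Measurable (Trans.lam i Ω 1 T) := hT.lam_measurable
    have hgi : Integrable (fun x => u x * gg (Trans.lam i Ω 1 T (x i))) := by
      refine Integrable.mono' hI ?_ ?_
      · have h1 : Measurable u := hu.smooth.continuous.measurable
        have h2 : Measurable gg := gg_continuous.measurable
        exact (h1.mul (h2.comp (hlamm.comp (meas_coord i)))).aestronglyMeasurable
      · filter_upwards [hT.ae_Gf] with x hx
        by_cases h : x ∈ Ω
        · rw [Real.norm_eq_abs, abs_of_nonneg (mul_nonneg (hu0 x) (gg_nonneg _))]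
          exact mul_le_mul_of_nonneg_left (gg_le_Gf hn (hx h).1) (hu0 x)
        · rw [hu.zero_of_notMem h, zero_mul, zero_mul, norm_zero]
    have hle : ∫ x, u x * gg (Trans.lam i Ω 1 T (x i)) ≤
        ∫ x, u x * Gf n (Trans.lam i Ω 1 T (x i)) := by
      apply integral_mono_ae hgi hI
      filter_upwards [hT.ae_Gf] with x hx
      by_cases h : x ∈ Ω
      · exact mul_le_mul_of_nonneg_left (gg_le_Gf hn (hx h).1) (hu0 x)
      · simp only [hu.zero_of_notMem h, zero_mul, le_refl]
    have heq : (fun s => flux u i s * gg (Am i Ω s / Pool.Agent.Helper71.FK.bt n 1 (T s))) =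
        fun s => ∫ y : E n, u (ins i s y) * gg (Trans.lam i Ω 1 T (ins i s y i)) := by
      funext s
      rw [flux_eq hu, ← integral_mul_const]
      congr 1
      funext y
      rw [ins_same]
      rfl
    refine ⟨fun s => ?_, ?_, ?_⟩
    · rw [flux_eq hu]
      exact integral_nonneg fun y => hu0 _
    · rw [heq]
      exact integrable_integral_ins i hgi
    · rw [heq, ← integral_ins i hgi]
      push_cast
      have h3 : 2 * ((n:ℝ) + 1) * ∫ x, u x * gg (Trans.lam i Ω 1 T (x i)) ≤
          2 * ((n:ℝ) + 1) * ∫ x, u x * Gf n (Trans.lam i Ω 1 T (x i)) :=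
        mul_le_mul_of_nonneg_left hle (by positivity)
      linarith

end

/-- M6b (inner level sets are close to concentric balls), `|Ω| = om N`, `N ≥ 2`. -/
theorem partII {N : ℕ} (hN : 2 ≤ N) {Ω : Set (E N)}
    {u : ℕ → E N → ℝ} {w : E N → ℝ} {g : E N → E N} (hp : Pair Ω u w g)
    (hEL : ∫ x, ‖g x‖ ^ 2 = ∫ x, w x)
    (hTal : ∀ s, 0 ≤ s → volume.real {x | s < w x} ≤ om N * (Real.sqrt (1 - 2 * N * s)) ^ N)
    (hstar : ∫ x in Ω, (Real.sqrt (1 - 2 * N * w x) - N * ‖g x‖) ^ 2 ≤
      N * (N + 2) * (TB N 1 - ∫ x, w x))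
    (hV : volume Ω = ENNReal.ofReal (om N))
    {d : ℝ} (hd0 : 0 < d) (hd : TB N 1 - (∫ x, w x) ≤ d) (hds : d ≤ smallC N) :
    ∃ b : E N, ∫ p in (1 / 4 : ℝ)..(1 / 2),
      volume.real (symmDiff {y | 1 - 2 * N * w y < p} (ball b (Real.sqrt p))) ≤
        2 ^ (N + 8) * N * Real.sqrt (om N * Zd N d) := by
  obtain ⟨n, rfl⟩ : ∃ n, N = n + 1 := ⟨N - 1, by omega⟩
  have hn : 1 ≤ n := by omega
  have hV' : volume Ω = ENNReal.ofReal (om (n + 1) * 1 ^ (n + 1)) := by rw [one_pow, mul_one]; exact hV
  choose T hT using fun i : Fin (n + 1) => exists_trans i hp.isOpen one_pos hV'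
  exact partII_core rfl hn hp hEL hTal hstar hV (fun i => dirData_of_trans hn (hT i)) hd0 hd hds

end Pool.Agent.Helper64.FKI
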